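import Pool.Agent.Lib_helper59.SH.Reduce

/-!
# Two presentations with simply equivalent reductions are simple-homotopy equivalent
-/

set_option autoImplicit false

namespace Pool.SH

open Matrix

section tau

variable {R : Type} [Ring R] {a a' μ ν ξ : Type} [Fintype a] [DecidableEq a] [Fintype a']
  [DecidableEq a'] [Fintype μ] [DecidableEq μ] [Fintype ν] [DecidableEq ν] [Fintype ξ]
  [DecidableEq ξ]

/-- the matrix exchanging the summands `a`, `a'`, with `M` on the remaining summand -/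
def tau (M : Matrix μ ν R) : Matrix ((a ⊕ μ) ⊕ a') ((a' ⊕ ν) ⊕ a) R :=
  fromBlocks (fromBlocks 0 0 0 M) (fromRows 1 0) (fromCols 1 0) 0

omit [DecidableEq μ] [DecidableEq ν] [DecidableEq ξ] [Fintype ξ] [Fintype μ] in
lemma tau_left (V : Matrix μ ν R) (M : Matrix ν ξ R) :
    fromBlocks (fromBlocks (1 : Matrix a a R) 0 0 V) 0 0 (1 : Matrix a' a' R) *
      (tau M : Matrix ((a ⊕ ν) ⊕ a') ((a' ⊕ ξ) ⊕ a) R) =
      (tau (V * M) : Matrix ((a ⊕ μ) ⊕ a') ((a' ⊕ ξ) ⊕ a) R) := by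
  unfold tau
  rw [fromBlocks_multiply, fromBlocks_multiply, fromBlocks_mul_fromRows]
  simp

omit [DecidableEq μ] [DecidableEq ν] [DecidableEq ξ] [Fintype ξ] [Fintype μ] in
lemma tau_right (M : Matrix μ ν R) (V : Matrix ν ξ R) :
    (tau M : Matrix ((a ⊕ μ) ⊕ a') ((a' ⊕ ν) ⊕ a) R) *
      fromBlocks (fromBlocks (1 : Matrix a' a' R) 0 0 V) 0 0 (1 : Matrix a a R) =
      (tau (M * V) : Matrix ((a ⊕ μ) ⊕ a') ((a' ⊕ ξ) ⊕ a) R) := by
  unfold tau
  rw [fromBlocks_multiply, fromBlocks_multiply, fromCols_mul_fromBlocks]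
  simp

end tau

section

variable {H : Type} [Group H]

lemma triv_tau {a a' μ ν : Type} [Fintype a] [DecidableEq a] [Fintype a']
    [DecidableEq a'] [Fintype μ] [Fintype ν]
    {M : Matrix μ ν (ZG H)} (hM : TrivialInWh M) :
    TrivialInWh (tau M : Matrix ((a ⊕ μ) ⊕ a') ((a' ⊕ ν) ⊕ a) (ZG H)) := by
  have h := triv_block (δ := a ⊕ a') hM
  have h2 := triv_submatrix h
    (((Equiv.sumComm a μ).sumCongr (Equiv.refl a')).trans (Equiv.sumAssoc μ a a'))
    (((Equiv.sumComm a' ν).sumCongr (Equiv.refl a)).trans ((Equiv.sumAssoc ν a' a).trans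
      ((Equiv.refl ν).sumCongr (Equiv.sumComm a' a))))
  convert h2 using 1
  refine Matrix.ext fun i j => ?_
  rcases i with (i | i) | i <;> rcases j with (j | j) | j <;>
    simp [tau, Matrix.one_apply]

/-- transport of `El` along group homomorphisms -/
lemma El_map {H' : Type} [Group H'] (φ : H →* H') {κ : Type} [Fintype κ] [DecidableEq κ]
    {A : Matrix κ κ (ZG H)} (hA : A ∈ El H κ) :
    A.map (MonoidAlgebra.mapDomainRingHom ℤ φ) ∈ El H' κ := by
  have hof : ∀ h : H, MonoidAlgebra.mapDomainRingHom ℤ φ (ofG h) = ofG (φ h) := by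
    intro h
    simp [ofG]
  induction hA using El_induct with
  | h1 => rw [Matrix.map_one _ (map_zero _) (map_one _)]; exact one_mem _
  | hmul A B _ _ hA hB => rw [Matrix.map_mul]; exact mul_mem hA hB
  | hel i j hij a =>
    have : (1 + single i j a).map (MonoidAlgebra.mapDomainRingHom ℤ φ) =
        1 + single i j (MonoidAlgebra.mapDomainRingHom ℤ φ a) := by
      refine Matrix.ext fun k l => ?_
      simp only [Matrix.map_apply, Matrix.add_apply, Matrix.one_apply, single_apply, map_add]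
      split_ifs <;> simp
    rw [this]
    exact el_mem hij _
  | hd i h =>
    have : (diagonal (Function.update 1 i (ofG h))).map (MonoidAlgebra.mapDomainRingHom ℤ φ) =
        diagonal (Function.update 1 i (ofG (φ h))) := by
      rw [diagonal_map (map_zero _)]
      congr 1
      funext k
      by_cases hk : k = i
      · subst hk; simp [hof]
      · simp [hk]
    rw [this]
    exact dg_mem _ _
  | hdn i h =>
    have : (diagonal (Function.update 1 i (-ofG h))).map (MonoidAlgebra.mapDomainRingHom ℤ φ) =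
        diagonal (Function.update 1 i (-ofG (φ h))) := by
      rw [diagonal_map (map_zero _)]
      congr 1
      funext k
      by_cases hk : k = i
      · subst hk
        rw [Function.update_self, Function.update_self, map_neg, hof]
      · simp [hk]
    rw [this]
    exact dgn_mem _ _

lemma triv_map {H' : Type} [Group H'] (φ : H →* H') {α β : Type}
    {M : Matrix α β (ZG H)} (hM : TrivialInWh M) :
    TrivialInWh (M.map (MonoidAlgebra.mapDomainRingHom ℤ φ)) := by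
  obtain ⟨p, n, e₁, e₂, h⟩ := hM
  refine ⟨p, n, e₁, e₂, ?_⟩
  have h1 := El_map φ h
  convert h1 using 1
  refine Matrix.ext fun k l => ?_
  simp only [reindex_apply, submatrix_apply, Matrix.map_apply]
  rcases e₁.symm k with k | k <;> rcases e₂.symm l with l | l
  · simp
  · simp
  · simp
  · simp only [fromBlocks_apply₂₂, Matrix.one_apply]
    split_ifs <;> simp

lemma fx_mapRing {H' X : Type} [Group H'] [DecidableEq X] (φ : H →* H') (θ : FreeGroup X →* H)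
    (w : FreeGroup X) (x : X) :
    MonoidAlgebra.mapDomainRingHom ℤ φ (fx θ w x) = fx (φ.comp θ) w x := by
  have h := crossed_unique (φ.comp θ) (fun x => (Pi.single x 1 : X → ZG H'))
    (fun w y => MonoidAlgebra.mapDomainRingHom ℤ φ (fx θ w y)) (by
      intro u w
      funext y
      simp only [fx_mul, Pi.add_apply, Pi.smul_apply, smul_eq_mul, map_add, map_mul]
      simp [ofG]) (by
      intro y
      funext z
      rw [fx_of]
      by_cases hz : z = y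
      · subst hz; simp
      · simp [Pi.single_eq_of_ne hz]) w
  exact congrFun h x

lemma Pres.bd₁_map (P : Pres) {H' : Type} [Group H'] (φ : H →* H') (ψ : P.Pi →* H) :
    (P.bd₁ ψ).map (MonoidAlgebra.mapDomainRingHom ℤ φ) = P.bd₁ (φ.comp ψ) := by
  refine Matrix.ext fun x u => ?_
  simp only [Pres.bd₁, Matrix.map_apply, Matrix.of_apply, map_sub, map_one]
  simp [ofG]

lemma Pres.bd₂_map (P : Pres) {H' : Type} [Group H'] (φ : H →* H') (ψ : P.Pi →* H) :
    (P.bd₂ ψ).map (MonoidAlgebra.mapDomainRingHom ℤ φ) = P.bd₂ (φ.comp ψ) := by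
  refine Matrix.ext fun r x => ?_
  rw [Matrix.map_apply, P.bd₂_apply, P.bd₂_apply, fx_mapRing]
  rfl

lemma assoc_block {m g x a : Type} [DecidableEq x] [DecidableEq a] (D : Matrix m g (ZG H)) :
    (fromBlocks (fromBlocks D 0 0 (1 : Matrix x x (ZG H))) 0 0
      (1 : Matrix a a (ZG H))).submatrix (Equiv.sumAssoc m x a).symm (Equiv.sumAssoc g x a).symm =
    fromBlocks D 0 0 (1 : Matrix (x ⊕ a) (x ⊕ a) (ZG H)) := by
  refine Matrix.ext fun i j => ?_
  rcases i with i | i | i <;> rcases j with j | j | j <;> simp [Matrix.one_apply]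

theorem simpleEquiv_of_reduced {P Q : Pres} (ψP : P.Pi →* H) (hψP : Function.Bijective ψP)
    (ψQ : Q.Pi →* H) (hψQ : Function.Bijective ψQ) {x m₀ : ℕ} {π : Fin x → H}
    {VP VQ : Matrix (Fin m₀) (Fin x) (ZG H)}
    {AP : Matrix (Fin P.rels ⊕ Fin x) (Fin P.gens ⊕ Fin m₀) (ZG H)}
    {AQ : Matrix (Fin Q.rels ⊕ Fin x) (Fin Q.gens ⊕ Fin m₀) (ZG H)}
    {BP : Matrix (Fin P.gens ⊕ Fin x) (Fin P.gens ⊕ Fin x) (ZG H)}
    {BQ : Matrix (Fin Q.gens ⊕ Fin x) (Fin Q.gens ⊕ Fin x) (ZG H)}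
    (hAP : TrivialInWh AP) (hBP : TrivialInWh BP)
    (hAQ : TrivialInWh AQ) (hBQ : TrivialInWh BQ)
    (hP : fromBlocks (P.bd₂ ψP) 0 0 (1 : Matrix (Fin x) (Fin x) (ZG H)) * BP =
        AP * fromBlocks (1 : Matrix (Fin P.gens) (Fin P.gens) (ZG H)) 0 0 VP)
    (hQ : fromBlocks (Q.bd₂ ψQ) 0 0 (1 : Matrix (Fin x) (Fin x) (ZG H)) * BQ =
        AQ * fromBlocks (1 : Matrix (Fin Q.gens) (Fin Q.gens) (ZG H)) 0 0 VQ)
    (hP' : BP * (fromRows 0 (D1o π) : Matrix (Fin P.gens ⊕ Fin x) Unit (ZG H)) =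
      fromRows (P.bd₁ ψP) 0)
    (hQ' : BQ * (fromRows 0 (D1o π) : Matrix (Fin Q.gens ⊕ Fin x) Unit (ZG H)) =
      fromRows (Q.bd₁ ψQ) 0)
    {Φ : Matrix (Fin m₀) (Fin m₀) (ZG H)} (hΦ : TrivialInWh Φ) (hV : VP = Φ * VQ) :
    SimpleEquiv P Q := by
  let g := Fin P.gens
  let g' := Fin Q.gens
  let m := Fin P.rels
  let m' := Fin Q.rels
  obtain ⟨AQ', hAQ', a1, a2⟩ := triv_inv hAQ
  obtain ⟨BQ', hBQ', b1, b2⟩ := triv_inv hBQ
  let F1 : Matrix ((g ⊕ Fin x) ⊕ g') ((g' ⊕ Fin x) ⊕ g) (ZG H) :=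
    fromBlocks BP 0 0 (1 : Matrix g' g' (ZG H)) *
      (tau (1 : Matrix (Fin x) (Fin x) (ZG H)) : Matrix ((g ⊕ Fin x) ⊕ g') ((g' ⊕ Fin x) ⊕ g)
        (ZG H)) * fromBlocks BQ' 0 0 (1 : Matrix g g (ZG H))
  let F2 : Matrix ((m ⊕ Fin x) ⊕ g') ((m' ⊕ Fin x) ⊕ g) (ZG H) :=
    fromBlocks AP 0 0 (1 : Matrix g' g' (ZG H)) *
      (tau Φ : Matrix ((g ⊕ Fin m₀) ⊕ g') ((g' ⊕ Fin m₀) ⊕ g)
        (ZG H)) * fromBlocks AQ' 0 0 (1 : Matrix g g (ZG H))
  have hF1 : TrivialInWh F1 :=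
    triv_mul (triv_mul (triv_block hBP) (triv_tau (triv_of_mem (one_mem _)))) (triv_block hBQ')
  have hF2 : TrivialInWh F2 :=
    triv_mul (triv_mul (triv_block hAP) (triv_tau hΦ)) (triv_block hAQ')
  let DP : Matrix (m ⊕ Fin x) (g ⊕ Fin x) (ZG H) := fromBlocks (P.bd₂ ψP) 0 0 1
  let DQ : Matrix (m' ⊕ Fin x) (g' ⊕ Fin x) (ZG H) := fromBlocks (Q.bd₂ ψQ) 0 0 1
  have hcomm : fromBlocks DP 0 0 (1 : Matrix g' g' (ZG H)) * F1 =
      F2 * fromBlocks DQ 0 0 (1 : Matrix g g (ZG H)) := by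
    have e1 : fromBlocks DP 0 0 (1 : Matrix g' g' (ZG H)) *
        fromBlocks BP 0 0 (1 : Matrix g' g' (ZG H)) =
        fromBlocks AP 0 0 (1 : Matrix g' g' (ZG H)) *
          fromBlocks (fromBlocks (1 : Matrix g g (ZG H)) 0 0 VP) 0 0 (1 : Matrix g' g' (ZG H)) := by
      rw [fromBlocks_multiply, fromBlocks_multiply]
      simp only [Matrix.mul_zero, Matrix.zero_mul, add_zero, zero_add, Matrix.mul_one]
      congr 1
    have e2 : AQ' * DQ = fromBlocks (1 : Matrix g' g' (ZG H)) 0 0 VQ * BQ' := by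
      have : AQ' * (DQ * BQ) * BQ' = AQ' * (AQ * fromBlocks (1 : Matrix g' g' (ZG H)) 0 0 VQ) *
          BQ' := by
        simp only [DQ]; rw [hQ]
      rw [← Matrix.mul_assoc, Matrix.mul_assoc _ BQ, b1, Matrix.mul_one, ← Matrix.mul_assoc AQ',
        a2, Matrix.one_mul] at this
      exact this
    have e3 : fromBlocks AQ' 0 0 (1 : Matrix g g (ZG H)) *
        fromBlocks DQ 0 0 (1 : Matrix g g (ZG H)) =
        fromBlocks (fromBlocks (1 : Matrix g' g' (ZG H)) 0 0 VQ) 0 0 (1 : Matrix g g (ZG H)) *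
          fromBlocks BQ' 0 0 (1 : Matrix g g (ZG H)) := by
      rw [fromBlocks_multiply, fromBlocks_multiply]
      simp only [Matrix.mul_zero, Matrix.zero_mul, add_zero, zero_add, Matrix.mul_one]
      rw [e2]
    simp only [F1, F2]
    rw [← Matrix.mul_assoc, ← Matrix.mul_assoc, e1, Matrix.mul_assoc _ _ (tau 1), tau_left,
      Matrix.mul_one, Matrix.mul_assoc _ _ (fromBlocks DQ 0 0 1), e3, ← Matrix.mul_assoc,
      Matrix.mul_assoc _ (tau Φ), tau_right, hV]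
  let C0P : Matrix (g ⊕ Fin x) Unit (ZG H) := fromRows 0 (D1o π)
  let C0Q : Matrix (g' ⊕ Fin x) Unit (ZG H) := fromRows 0 (D1o π)
  let CP : Matrix (g ⊕ Fin x) Unit (ZG H) := fromRows (P.bd₁ ψP) 0
  let CQ : Matrix (g' ⊕ Fin x) Unit (ZG H) := fromRows (Q.bd₁ ψQ) 0
  let CP' : Matrix ((g ⊕ Fin x) ⊕ g') Unit (ZG H) := fromRows CP 0
  let CQ' : Matrix ((g' ⊕ Fin x) ⊕ g) Unit (ZG H) := fromRows CQ 0
  have hF1D : F1 * CQ' = CP' := by
    have e1 : BQ' * CQ = C0Q := by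
      change BQ * C0Q = CQ at hQ'
      rw [← hQ', ← Matrix.mul_assoc, b2, Matrix.one_mul]
    have e2 : fromBlocks BQ' 0 0 (1 : Matrix g g (ZG H)) * CQ' =
        (fromRows C0Q 0 : Matrix ((g' ⊕ Fin x) ⊕ g) Unit (ZG H)) := by
      simp only [CQ', fromBlocks_mul_fromRows, e1]
      simp
    have e3 : (tau (1 : Matrix (Fin x) (Fin x) (ZG H)) : Matrix ((g ⊕ Fin x) ⊕ g')
        ((g' ⊕ Fin x) ⊕ g) (ZG H)) * (fromRows C0Q 0 : Matrix ((g' ⊕ Fin x) ⊕ g) Unit (ZG H)) =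
        (fromRows C0P 0 : Matrix ((g ⊕ Fin x) ⊕ g') Unit (ZG H)) := by
      simp only [tau, C0Q, C0P, fromBlocks_mul_fromRows, fromCols_mul_fromRows]
      simp
    have e4 : fromBlocks BP 0 0 (1 : Matrix g' g' (ZG H)) *
        (fromRows C0P 0 : Matrix ((g ⊕ Fin x) ⊕ g') Unit (ZG H)) = CP' := by
      change BP * C0P = CP at hP'
      simp only [CP', fromBlocks_mul_fromRows, hP']
      simp
    simp only [F1]
    rw [Matrix.mul_assoc, Matrix.mul_assoc, e2, e3, e4]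
  -- reassociation
  let t := Fin x ⊕ g'
  let t' := Fin x ⊕ g
  let F1' : Matrix (g ⊕ t) (g' ⊕ t') (ZG H) :=
    F1.submatrix (Equiv.sumAssoc g (Fin x) g').symm (Equiv.sumAssoc g' (Fin x) g).symm
  let F2' : Matrix (m ⊕ t) (m' ⊕ t') (ZG H) :=
    F2.submatrix (Equiv.sumAssoc m (Fin x) g').symm (Equiv.sumAssoc m' (Fin x) g).symm
  have hF1' : TrivialInWh F1' := triv_submatrix hF1 _ _
  have hF2' : TrivialInWh F2' := triv_submatrix hF2 _ _
  have hcomm' : fromBlocks (P.bd₂ ψP) 0 0 (1 : Matrix t t (ZG H)) * F1' =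
      F2' * fromBlocks (Q.bd₂ ψQ) 0 0 (1 : Matrix t' t' (ZG H)) := by
    rw [← assoc_block, ← assoc_block]
    simp only [F1', F2']
    rw [submatrix_mul_equiv, submatrix_mul_equiv]
    exact congrArg (fun X => X.submatrix (Equiv.sumAssoc m (Fin x) g').symm
      (Equiv.sumAssoc g' (Fin x) g).symm) hcomm
  have hF1D' : F1' * (fromRows (Q.bd₁ ψQ) 0 : Matrix (g' ⊕ t') Unit (ZG H)) =
      (fromRows (P.bd₁ ψP) 0 : Matrix (g ⊕ t) Unit (ZG H)) := by
    have e1 : (fromRows (Q.bd₁ ψQ) 0 : Matrix (g' ⊕ t') Unit (ZG H)) =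
        CQ'.submatrix (Equiv.sumAssoc g' (Fin x) g).symm id := by
      refine Matrix.ext fun i j => ?_
      rcases i with i | i | i <;> rfl
    have e2 : (fromRows (P.bd₁ ψP) 0 : Matrix (g ⊕ t) Unit (ZG H)) =
        CP'.submatrix (Equiv.sumAssoc g (Fin x) g').symm id := by
      refine Matrix.ext fun i j => ?_
      rcases i with i | i | i <;> rfl
    rw [e1, e2, ← hF1D]
    simp only [F1']
    exact submatrix_mul_equiv F1 CQ' _ _ _
  obtain ⟨G1, hG1, c1, c2⟩ := triv_inv hF1'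
  obtain ⟨b, bb, b3, b4, hF1e⟩ : ∃ a b c d, F1' = fromBlocks a b c d :=
    ⟨_, _, _, _, (fromBlocks_toBlocks _).symm⟩
  obtain ⟨a, aa, a3, a4, hF2e⟩ : ∃ a b c d, F2' = fromBlocks a b c d :=
    ⟨_, _, _, _, (fromBlocks_toBlocks _).symm⟩
  obtain ⟨p, pp, p3, p4, hG1e⟩ : ∃ a b c d, G1 = fromBlocks a b c d :=
    ⟨_, _, _, _, (fromBlocks_toBlocks _).symm⟩
  rw [hF1e] at c2 hcomm' hF1D'
  rw [hF2e] at hcomm' hF2'
  rw [hG1e] at c2 hG1
  obtain ⟨hU, r1, r2, hU1, hU2⟩ := stable_to_U (P.bd₂ ψP) (Q.bd₂ ψQ) a aa a3 a4 b bb b3 b4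
    p pp p3 p4 hcomm' c2 hF2' hG1
  have hb1 : P.bd₁ ψP = b * Q.bd₁ ψQ := by
    rw [fromBlocks_mul_fromRows] at hF1D'
    have := (fromRows_inj hF1D').1
    simpa using this.symm
  have hb2 : P.bd₂ ψP * b = a * Q.bd₂ ψQ := by
    rw [fromBlocks_multiply, fromBlocks_multiply, fromBlocks_inj] at hcomm'
    simpa using hcomm'.1
  -- transport to `π₁ Q`
  let φ : H →* Q.Pi := (MulEquiv.ofBijective ψQ hψQ).symm.toMonoidHom
  have hφ : φ.comp ψQ = MonoidHom.id Q.Pi := by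
    ext y
    simp [φ, MulEquiv.symm_apply_eq]
  let f : ZG H →+* ZG Q.Pi := MonoidAlgebra.mapDomainRingHom ℤ φ
  let ψ : P.Pi →* Q.Pi := φ.comp ψP
  have hψ : Function.Bijective ψ := by
    rw [MonoidHom.coe_comp]
    exact (MulEquiv.ofBijective ψQ hψQ).symm.bijective.comp hψP
  have k1 : P.bd₁ ψ = b.map f * Q.bd₁ (MonoidHom.id Q.Pi) := by
    rw [← hφ, ← Q.bd₁_map, ← P.bd₁_map, hb1, Matrix.map_mul]
  have k2 : P.bd₂ ψ * b.map f = a.map f * Q.bd₂ (MonoidHom.id Q.Pi) := by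
    rw [← hφ, ← Q.bd₂_map, ← P.bd₂_map, ← Matrix.map_mul, hb2, Matrix.map_mul]
  obtain ⟨F, hF, hm1, hm2⟩ := exists_cellMap P Q ψ (b.map f) (a.map f) k1 k2
  have hUmap : (fromBlocks (-P.bd₂ ψP) a p (pp * a3)).map f =
      fromBlocks (-P.bd₂ F.onPi) F.mat₂ (p.map f) ((pp * a3).map f) := by
    rw [fromBlocks_map, hF, hm2]
    congr 1
    rw [← P.bd₂_map]
    refine Matrix.ext fun i j => ?_
    exact map_neg f _
  have hUmap' : (fromBlocks r1 b r2 (Q.bd₂ ψQ)).map f =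
      fromBlocks (r1.map f) F.mat₁ (r2.map f) (Q.bd₂ (MonoidHom.id Q.Pi)) := by
    rw [fromBlocks_map, hm1, ← hφ, ← Q.bd₂_map]
  refine simpleEquiv_of_U F (by rw [hF]; exact hψ) (p.map f) ((pp * a3).map f) (r1.map f)
    (r2.map f) ?_ ?_ ?_
  · rw [← hUmap, ← hUmap', ← Matrix.map_mul, hU1, Matrix.map_one _ (map_zero _) (map_one _)]
  · rw [← hUmap, ← hUmap', ← Matrix.map_mul, hU2, Matrix.map_one _ (map_zero _) (map_one _)]
  · rw [← hUmap]
    exact triv_map φ hU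

end

end Pool.SH
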