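import Pool.Agent.Lib_helper59.SH.Statement

/-!
# The minimal Euler characteristic is attained
-/

set_option autoImplicit false

namespace Pool.SH

/-- every finite group has a finite presentation -/
theorem exists_pres (G : Type) [Group G] [Finite G] : ∃ P : Pres, Nonempty (P.Pi ≃* G) := by
  classical
  let N := Nat.card G
  let e : G ≃ Fin N := Finite.equivFin G
  let θ : FreeGroup (Fin N) →* G := FreeGroup.lift e.symm
  have hθ : Function.Surjective θ := fun g => ⟨FreeGroup.of (e g), by simp [θ]⟩
  have hfi : θ.ker.FiniteIndex := inferInstance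
  have hfg : Group.FG θ.ker := Subgroup.fg_of_index_ne_zero θ.ker
  obtain ⟨S, hS⟩ := (Group.fg_iff_subgroup_fg θ.ker).1 hfg
  let f : Fin S.card ≃ S := S.equivFin.symm
  let P : Pres := ⟨N, S.card, fun i => (f i : FreeGroup (Fin N))⟩
  have hrange : Set.range P.rel = (S : Set (FreeGroup (Fin N))) := by
    ext w
    constructor
    · rintro ⟨i, rfl⟩
      exact (f i).2
    · intro hw
      exact ⟨f.symm ⟨w, hw⟩, by simp [P]⟩
  have hker : Subgroup.normalClosure (Set.range P.rel) = θ.ker := by
    rw [hrange]
    apply le_antisymm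
    · apply Subgroup.normalClosure_le_normal
      rw [← hS]
      exact Subgroup.subset_closure
    · rw [← hS]
      exact Subgroup.closure_le_normalClosure
  refine ⟨P, ⟨?_⟩⟩
  exact (QuotientGroup.quotientMulEquivOfEq hker).trans
    (QuotientGroup.quotientKerEquivOfSurjective θ hθ)

/-- the additive map of words given by a vector -/
noncomputable def wsum {g : ℕ} (v : Fin g → ℚ) : FreeGroup (Fin g) →* Multiplicative ℚ :=
  FreeGroup.lift fun x => Multiplicative.ofAdd (v x)

/-- a presentation complex with finite fundamental group has Euler characteristic at least one -/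
theorem one_le_chi (P : Pres) [Finite P.Pi] : 1 ≤ P.chi := by
  by_contra hlt
  have hlt' : P.rels < P.gens := by
    unfold Pres.chi at hlt
    omega
  let T : (Fin P.gens → ℚ) →ₗ[ℚ] (Fin P.rels → ℚ) :=
    { toFun := fun v r => Multiplicative.toAdd (wsum v (P.rel r))
      map_add' := by
        intro u v
        funext r
        have : wsum (u + v) = wsum u * wsum v := by
          refine FreeGroup.ext_hom _ _ fun x => ?_
          simp [wsum]
        rw [this]
        rfl
      map_smul' := by
        intro c v
        funext r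
        have : wsum (c • v) = (AddMonoidHom.toMultiplicative
            (AddMonoidHom.mulLeft c)).comp (wsum v) := by
          refine FreeGroup.ext_hom _ _ fun x => ?_
          simp [wsum]
        rw [this]
        rfl }
  have hker : LinearMap.ker T ≠ ⊥ := by
    apply LinearMap.ker_ne_bot_of_finrank_lt
    simpa using hlt'
  obtain ⟨v, hv, hv0⟩ := (Submodule.ne_bot_iff _).1 hker
  rw [LinearMap.mem_ker] at hv
  let h : P.Pi →* Multiplicative ℚ := PresentedGroup.toGroup
    (f := fun x => Multiplicative.ofAdd (v x)) (by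
      rintro _ ⟨r, rfl⟩
      have := congrFun hv r
      exact this)
  apply hv0
  funext x
  have h1 : h (PresentedGroup.of x) = Multiplicative.ofAdd (v x) := PresentedGroup.toGroup.of _
  have h2 : IsOfFinOrder (h (PresentedGroup.of x)) :=
    h.isOfFinOrder (isOfFinOrder_of_finite _)
  rw [isOfFinOrder_iff_pow_eq_one] at h2
  obtain ⟨k, hk, hk2⟩ := h2
  rw [h1, ← ofAdd_nsmul] at hk2
  have h3 : k • v x = 0 := hk2
  simpa [hk.ne'] using h3

/-- the minimum exists -/
theorem isLeast_chiMin (G : Type) [Group G] [Finite G] :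
    IsLeast {n : ℤ | ∃ P : Pres, Nonempty (P.Pi ≃* G) ∧ P.chi = n} (chiMin G) := by
  have hne : {n : ℤ | ∃ P : Pres, Nonempty (P.Pi ≃* G) ∧ P.chi = n}.Nonempty := by
    obtain ⟨P, hP⟩ := exists_pres G
    exact ⟨P.chi, P, hP, rfl⟩
  have hbdd : BddBelow {n : ℤ | ∃ P : Pres, Nonempty (P.Pi ≃* G) ∧ P.chi = n} := by
    refine ⟨1, ?_⟩
    rintro n ⟨P, ⟨e⟩, rfl⟩
    have : Finite P.Pi := Finite.of_equiv G e.symm.toEquiv
    exact one_le_chi P
  exact ⟨Int.csInf_mem hne hbdd, fun n hn => csInf_le hbdd hn⟩

end Pool.SH
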