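import Pool.Agent.Lib_helper59.SH.Statement

/-!
# Realisation of chain maps by cellular maps
-/

set_option autoImplicit false

namespace Pool.SH

open Matrix
open scoped commutatorElement

section

variable (Q : Pres)

lemma Pres.proj_surjective : Function.Surjective Q.proj :=
  PresentedGroup.mk_surjective _

lemma Pres.ker_proj : Q.proj.ker = Q.bdry.range := by
  have h1 : Q.proj.ker = Subgroup.normalClosure (Set.range Q.rel) := by
    ext x
    rw [MonoidHom.mem_ker]
    exact PresentedGroup.mk_eq_one_iff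
  apply le_antisymm
  · rw [h1]
    unfold Subgroup.normalClosure
    rw [Subgroup.closure_le]
    intro x hx
    rw [Group.mem_conjugatesOfSet_iff] at hx
    obtain ⟨_, ⟨r, rfl⟩, hconj⟩ := hx
    obtain ⟨g, rfl⟩ := isConj_iff.1 hconj
    exact ⟨FreeGroup.of (g, r), by simp [Pres.bdry]⟩
  · rintro _ ⟨c, rfl⟩
    exact Q.proj_bdry c

lemma Pres.commutator_ker_le :
    ⁅Q.proj.ker, Q.proj.ker⁆ ≤ ((Q.fillChain (MonoidHom.id Q.Pi)).ker).map Q.bdry := by
  rw [Subgroup.commutator_le]
  intro x hx y hy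
  rw [Q.ker_proj] at hx hy
  obtain ⟨a, rfl⟩ := hx
  obtain ⟨b, rfl⟩ := hy
  refine ⟨⁅a, b⁆, ?_, by simp [map_commutatorElement]⟩
  change _ ∈ MonoidHom.ker _
  rw [MonoidHom.mem_ker, map_commutatorElement]
  simp [commutatorElement_def]

lemma Pres.fillChain_surjective :
    Function.Surjective (Q.fillChain (MonoidHom.id Q.Pi)) := by
  classical
  let S : AddSubgroup (Fin Q.rels → ZG Q.Pi) :=
    { carrier := {v | ∃ c, Q.fillChain (MonoidHom.id Q.Pi) c = Multiplicative.ofAdd v}
      zero_mem' := ⟨1, by simp⟩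
      add_mem' := by
        rintro u v ⟨a, ha⟩ ⟨b, hb⟩
        exact ⟨a * b, by rw [map_mul, ha, hb, ofAdd_add]⟩
      neg_mem' := by
        rintro u ⟨a, ha⟩
        exact ⟨a⁻¹, by rw [map_inv, ha, ofAdd_neg]⟩ }
  have hS : ∀ v, v ∈ S := by
    intro v
    have hq : (QuotientAddGroup.mk' S) = 0 := by
      apply addHom_ext_pi
      intro h r
      rw [AddMonoidHom.zero_apply]
      apply (QuotientAddGroup.eq_zero_iff _).2
      obtain ⟨w, hw⟩ := Q.proj_surjective h
      refine ⟨FreeGroup.of (w, r), ?_⟩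
      rw [← Pi.single_smul, smul_eq_mul, mul_one]
      simp only [Pres.fillChain, FreeGroup.lift_apply_of]
      rw [hw]
      rfl
    have := DFunLike.congr_fun hq v
    exact (QuotientAddGroup.eq_zero_iff v).1 this
  intro v
  obtain ⟨c, hc⟩ := hS (Multiplicative.toAdd v)
  exact ⟨c, hc⟩

/-- realisation of 2-chains by fillings -/
theorem Pres.exists_fill (z : FreeGroup (Fin Q.gens)) (a : Fin Q.rels → ZG Q.Pi)
    (h1 : Q.proj z = 1) (h2 : fx Q.proj z = ∑ s, a s • fx Q.proj (Q.rel s)) :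
    ∃ c, Q.bdry c = z ∧
      Multiplicative.toAdd (Q.fillChain (MonoidHom.id Q.Pi) c) = a := by
  obtain ⟨c₀, hc₀⟩ := Q.fillChain_surjective (Multiplicative.ofAdd a)
  have h3 := Q.fx_bdry (MonoidHom.id Q.Pi) c₀
  rw [MonoidHom.id_comp, hc₀] at h3
  have h4 : fx Q.proj (Q.bdry c₀) = fx Q.proj z := by rw [h2, h3]; rfl
  have h5 : z * (Q.bdry c₀)⁻¹ ∈ ⁅Q.proj.ker, Q.proj.ker⁆ := by
    apply mem_commutator_of_fx Q.proj_surjective
    · simp [h1, Q.proj_bdry]
    · rw [fx_mul, fx_inv, h1, Q.proj_bdry, h4]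
      simp
  obtain ⟨c₁, hc₁, hb⟩ := Q.commutator_ker_le h5
  refine ⟨c₁ * c₀, ?_, ?_⟩
  · rw [map_mul, hb, inv_mul_cancel_right]
  · have hc₁' : Q.fillChain (MonoidHom.id Q.Pi) c₁ = 1 := hc₁
    rw [map_mul, hc₁', hc₀, one_mul]
    rfl

end

/-- **Realisation** of chain maps which are the identity in degree 0 by cellular maps. -/
theorem exists_cellMap (P Q : Pres) (ψ : P.Pi →* Q.Pi)
    (b : Matrix (Fin P.gens) (Fin Q.gens) (ZG Q.Pi))
    (a : Matrix (Fin P.rels) (Fin Q.rels) (ZG Q.Pi))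
    (h1 : P.bd₁ ψ = b * Q.bd₁ (MonoidHom.id Q.Pi))
    (h2 : P.bd₂ ψ * b = a * Q.bd₂ (MonoidHom.id Q.Pi)) :
    ∃ f : CellMap P Q, f.onPi = ψ ∧ f.mat₁ = b ∧ f.mat₂ = a := by
  have hw : ∀ x, ∃ w, Q.proj w = ψ (P.proj (FreeGroup.of x)) ∧ fx Q.proj w = b x := by
    intro x
    apply exists_word Q.proj_surjective
    have := congrFun (congrFun h1 x) ()
    rw [Matrix.mul_apply] at this
    exact this.symm
  choose word hw1 hw2 using hw
  have hcomp : Q.proj.comp (FreeGroup.lift word) = ψ.comp P.proj := by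
    refine FreeGroup.ext_hom _ _ fun x => ?_
    simp only [MonoidHom.comp_apply, FreeGroup.lift_apply_of]
    exact hw1 x
  have hfill : ∀ r, ∃ c, Q.bdry c = FreeGroup.lift word (P.rel r) ∧
      Multiplicative.toAdd (Q.fillChain (MonoidHom.id Q.Pi) c) = a r := by
    intro r
    apply Q.exists_fill
    · have := DFunLike.congr_fun hcomp (P.rel r)
      simp only [MonoidHom.comp_apply] at this
      rw [this, P.proj_rel, map_one]
    · have h3 := fx_map Q.proj (FreeGroup.lift word) (P.rel r)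
      rw [h3, hcomp]
      funext y
      have h4 := congrFun (congrFun h2 r) y
      rw [Matrix.mul_apply, Matrix.mul_apply] at h4
      simp only [Finset.sum_apply, Pi.smul_apply, smul_eq_mul, FreeGroup.lift_apply_of, hw2]
      simp only [P.bd₂_apply, Q.bd₂_apply, MonoidHom.id_comp] at h4
      exact h4
  choose fill hfill1 hfill2 using hfill
  let f : CellMap P Q := ⟨word, fill, hfill1⟩
  refine ⟨f, ?_, ?_, ?_⟩
  · apply PresentedGroup.ext
    intro x
    have := f.onPi_proj (FreeGroup.of x)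
    rw [FreeGroup.lift_apply_of] at this
    exact this.trans (hw1 x)
  · refine Matrix.ext fun x y => ?_
    rw [f.mat₁_apply]
    exact congrFun (hw2 x) y
  · refine Matrix.ext fun r s => ?_
    exact congrFun (hfill2 r) s

end Pool.SH
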