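import Pool.Agent.Lib_helper59.SH.Wh
import Pool.Agent.Lib_helper59.SH.Realise

/-!
# From stable simple isomorphisms to simple-homotopy equivalences
-/

set_option autoImplicit false

namespace Pool.SH

open Matrix

section

variable {H : Type} [Group H]

lemma El_neg (κ : Type) [Fintype κ] [DecidableEq κ] : (-1 : Matrix κ κ (ZG H)) ∈ El H κ := by
  have key : ∀ s : Finset κ, diagonal (fun i => if i ∈ s then (-1 : ZG H) else 1) ∈ El H κ := by
    intro s
    induction s using Finset.induction_on with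
    | empty =>
      simp only [Finset.notMem_empty, if_false]
      rw [diagonal_one]
      exact one_mem _
    | insert i s hi ih =>
      have e : diagonal (fun k => if k ∈ insert i s then (-1 : ZG H) else 1) =
          diagonal (Function.update 1 i (-ofG 1)) *
            diagonal (fun k => if k ∈ s then (-1 : ZG H) else 1) := by
        rw [diagonal_mul_diagonal]
        congr 1
        funext k
        by_cases hk : k = i
        · subst hk; simp [hi]
        · simp [hk]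
      rw [e]
      exact mul_mem (dgn_mem _ _) ih
  have h := key Finset.univ
  have e : diagonal (fun i : κ => if i ∈ Finset.univ then (-1 : ZG H) else 1) = -1 := by
    rw [← diagonal_one, diagonal_neg]
    congr 1
    funext k
    simp
  rwa [e] at h

variable {m g m' g' t t' : Type} [Fintype m] [DecidableEq m] [Fintype g] [DecidableEq g]
  [Fintype m'] [DecidableEq m'] [Fintype g'] [DecidableEq g'] [Fintype t] [DecidableEq t]
  [Fintype t'] [DecidableEq t']

omit [DecidableEq m] in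
lemma triv_tri_lower {M : Matrix m g (ZG H)} {W : Matrix t g (ZG H)} {K : Matrix t t' (ZG H)}
    (hK : TrivialInWh K) (h : TrivialInWh (fromBlocks M 0 W K)) : TrivialInWh M := by
  obtain ⟨K', hK', h1, h2⟩ := triv_inv hK
  -- fromBlocks M 0 W K = (M ⊕ 1) * (lower W) * (1 ⊕ K)
  have e : fromBlocks M 0 W K = fromBlocks M 0 0 (1 : Matrix t t (ZG H)) *
      (fromBlocks (1 : Matrix g g (ZG H)) 0 W (1 : Matrix t t (ZG H)) *
        fromBlocks (1 : Matrix g g (ZG H)) 0 0 K) := by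
    simp [fromBlocks_multiply]
  rw [e] at h
  have h3 : TrivialInWh (fromBlocks (1 : Matrix g g (ZG H)) 0 0 K) := by
    have h4 := triv_block (δ := g) hK
    apply triv_of_submatrix (Equiv.sumComm t g) (Equiv.sumComm t' g)
    convert h4 using 1
    refine Matrix.ext fun k l => ?_
    rcases k with k | k <;> rcases l with l | l <;> simp
  exact triv_unblock (triv_cancel_right (triv_mul (triv_of_mem (El_lower W)) h3) h)

/-- The torsion of the chain map underlying a stable simple isomorphism. -/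
theorem stable_to_U (D2 : Matrix m g (ZG H)) (D2' : Matrix m' g' (ZG H))
    (a : Matrix m m' (ZG H)) (a2 : Matrix m t' (ZG H)) (a3 : Matrix t m' (ZG H))
    (a4 : Matrix t t' (ZG H))
    (b : Matrix g g' (ZG H)) (b2 : Matrix g t' (ZG H)) (b3 : Matrix t g' (ZG H))
    (b4 : Matrix t t' (ZG H))
    (p : Matrix g' g (ZG H)) (p2 : Matrix g' t (ZG H)) (p3 : Matrix t' g (ZG H))
    (p4 : Matrix t' t (ZG H))
    (hcomm : fromBlocks D2 0 0 (1 : Matrix t t (ZG H)) * fromBlocks b b2 b3 b4 =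
      fromBlocks a a2 a3 a4 * fromBlocks D2' 0 0 (1 : Matrix t' t' (ZG H)))
    (hinv : fromBlocks p p2 p3 p4 * fromBlocks b b2 b3 b4 = 1)
    (hF2 : TrivialInWh (fromBlocks a a2 a3 a4))
    (hG1 : TrivialInWh (fromBlocks p p2 p3 p4)) :
    TrivialInWh (fromBlocks (-D2) a p (p2 * a3)) ∧
      ∃ (r1 : Matrix g m (ZG H)) (r2 : Matrix m' m (ZG H)),
        fromBlocks (-D2) a p (p2 * a3) * fromBlocks r1 b r2 D2' = 1 ∧
        fromBlocks r1 b r2 D2' * fromBlocks (-D2) a p (p2 * a3) = 1 := by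
  rw [fromBlocks_multiply, fromBlocks_multiply, fromBlocks_inj] at hcomm
  rw [fromBlocks_multiply, ← fromBlocks_one, fromBlocks_inj] at hinv
  simp only [Matrix.zero_mul, Matrix.one_mul, Matrix.mul_zero, Matrix.mul_one, add_zero,
    zero_add] at hcomm
  obtain ⟨c1, c2, c3, c4⟩ := hcomm
  obtain ⟨i1, i2, i3, i4⟩ := hinv
  subst c2 c3 c4
  obtain ⟨G2, hG2, hG21, hG22⟩ := triv_inv hF2
  have hU : TrivialInWh (fromBlocks (-D2) a p (p2 * a3)) := by
    -- the big matrix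
    let D : Matrix (m ⊕ t) (g ⊕ t) (ZG H) := fromBlocks D2 0 0 1
    let F2 : Matrix (m ⊕ t) (m' ⊕ t') (ZG H) := fromBlocks a (D2 * b2) a3 b4
    let G1 : Matrix (g' ⊕ t') (g ⊕ t) (ZG H) := fromBlocks p p2 p3 p4
    let Big : Matrix ((m ⊕ t) ⊕ (g' ⊕ t')) ((g ⊕ t) ⊕ (m' ⊕ t')) (ZG H) := fromBlocks (-D) F2 G1 0
    have hBig : TrivialInWh Big := by
      apply triv_of_submatrix (Equiv.refl _) (Equiv.sumComm (m' ⊕ t') (g ⊕ t))
      have e : Big.submatrix (Equiv.refl _) (Equiv.sumComm (m' ⊕ t') (g ⊕ t)) =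
          fromBlocks F2 0 0 (1 : Matrix (g' ⊕ t') (g' ⊕ t') (ZG H)) *
            (fromBlocks (1 : Matrix (m' ⊕ t') (m' ⊕ t') (ZG H)) 0 0 G1 *
              fromBlocks (1 : Matrix (m' ⊕ t') (m' ⊕ t') (ZG H)) (-(G2 * D)) 0
                (1 : Matrix (g ⊕ t) (g ⊕ t) (ZG H))) := by
        rw [fromBlocks_multiply, fromBlocks_multiply]
        have e1 : F2 * (G2 * D) = D := by rw [← Matrix.mul_assoc, hG21, Matrix.one_mul]
        simp only [Matrix.one_mul, Matrix.mul_one, Matrix.zero_mul, Matrix.mul_zero, add_zero,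
          zero_add, Matrix.mul_neg, e1, neg_zero]
        refine Matrix.ext fun k l => ?_
        rcases k with k | k <;> rcases l with l | l <;> rfl
      rw [e]
      have h3 : TrivialInWh (fromBlocks (1 : Matrix (m' ⊕ t') (m' ⊕ t') (ZG H)) 0 0 G1) := by
        have h4 := triv_block (δ := m' ⊕ t') hG1
        apply triv_of_submatrix (Equiv.sumComm (g' ⊕ t') (m' ⊕ t'))
          (Equiv.sumComm (g ⊕ t) (m' ⊕ t'))
        convert h4 using 1
        refine Matrix.ext fun k l => ?_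
        rcases k with k | k <;> rcases l with l | l <;> rfl
      exact triv_mul (triv_block hF2) (triv_mul h3 (triv_of_mem (El_upper _)))
    have h1 : TrivialInWh ((fromBlocks (1 : Matrix (m ⊕ t) (m ⊕ t) (ZG H)) 0
        (fromBlocks 0 p2 0 p4) (1 : Matrix (g' ⊕ t') (g' ⊕ t') (ZG H)) * Big) *
        fromBlocks (1 : Matrix (g ⊕ t) (g ⊕ t) (ZG H)) (fromBlocks 0 b2 0 0) 0
          (1 : Matrix (m' ⊕ t') (m' ⊕ t') (ZG H))) :=
      triv_mul (triv_mul (triv_of_mem (El_lower _)) hBig) (triv_of_mem (El_upper _))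
    have h2 := triv_submatrix h1 (Equiv.sumSumSumComm m g' t t') (Equiv.sumSumSumComm g m' t t')
    have e : (((fromBlocks (1 : Matrix (m ⊕ t) (m ⊕ t) (ZG H)) 0
        (fromBlocks 0 p2 0 p4) (1 : Matrix (g' ⊕ t') (g' ⊕ t') (ZG H)) * Big) *
        fromBlocks (1 : Matrix (g ⊕ t) (g ⊕ t) (ZG H)) (fromBlocks 0 b2 0 0) 0
          (1 : Matrix (m' ⊕ t') (m' ⊕ t') (ZG H)))).submatrix (Equiv.sumSumSumComm m g' t t')
          (Equiv.sumSumSumComm g m' t t') =
        fromBlocks (fromBlocks (-D2) a p (p2 * a3)) 0 (fromBlocks 0 a3 p3 (p4 * a3))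
          (fromBlocks (-1) b4 0 1) := by
      have e3 : (((fromBlocks (1 : Matrix (m ⊕ t) (m ⊕ t) (ZG H)) 0
        (fromBlocks 0 p2 0 p4) (1 : Matrix (g' ⊕ t') (g' ⊕ t') (ZG H)) * Big) *
        fromBlocks (1 : Matrix (g ⊕ t) (g ⊕ t) (ZG H)) (fromBlocks 0 b2 0 0) 0
          (1 : Matrix (m' ⊕ t') (m' ⊕ t') (ZG H)))) =
          fromBlocks (fromBlocks (-D2) 0 0 (-1)) (fromBlocks a 0 a3 b4) (fromBlocks p 0 p3 0)
            (fromBlocks (p2 * a3) 0 (p4 * a3) 1) := by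
        simp only [Big, D, F2, G1, fromBlocks_multiply, Matrix.one_mul, Matrix.mul_one,
          Matrix.zero_mul, Matrix.mul_zero, add_zero, zero_add, fromBlocks_neg, fromBlocks_add,
          Matrix.mul_neg, Matrix.neg_mul, neg_zero]
        rw [i2, i4]
        simp
      rw [e3]
      refine Matrix.ext fun k l => ?_
      rcases k with (k | k) | (k | k) <;> rcases l with (l | l) | (l | l) <;> rfl
    rw [e] at h2
    refine triv_tri_lower ?_ h2
    have e5 : (fromBlocks (-1) b4 0 1 : Matrix (t ⊕ t') (t ⊕ t') (ZG H)) =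
        fromBlocks (-1 : Matrix t t (ZG H)) 0 0 1 * fromBlocks 1 (-b4) 0 1 := by
      simp [fromBlocks_multiply]
    rw [e5]
    exact triv_of_mem (mul_mem (El_block (El_neg t)) (El_upper _))
  refine ⟨hU, ?_⟩
  obtain ⟨U', -, h1, h2⟩ := triv_inv hU
  obtain ⟨u1, u2, u3, u4, hU'⟩ : ∃ a b c d, U' = fromBlocks a b c d :=
    ⟨_, _, _, _, (fromBlocks_toBlocks U').symm⟩
  subst hU'
  have h3 : fromBlocks (-D2) a p (p2 * a3) * fromBlocks (0 : Matrix g m (ZG H)) b 0 D2' =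
      fromBlocks (0 : Matrix m m (ZG H)) 0 0 1 := by
    rw [fromBlocks_multiply]
    congr 1
    · simp
    · simp [← c1]
    · simp
    · rw [Matrix.mul_assoc]; exact i1
  have h4 : fromBlocks u1 u2 u3 u4 * (fromBlocks (-D2) a p (p2 * a3) *
      fromBlocks (0 : Matrix g m (ZG H)) b 0 D2') = fromBlocks u1 u2 u3 u4 *
      fromBlocks (0 : Matrix m m (ZG H)) 0 0 (1 : Matrix g' g' (ZG H)) := by rw [h3]
  rw [← Matrix.mul_assoc, h2, Matrix.one_mul, fromBlocks_multiply, fromBlocks_inj] at h4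
  simp only [Matrix.mul_zero, Matrix.mul_one, add_zero, zero_add] at h4
  obtain ⟨-, h5, -, h6⟩ := h4
  refine ⟨u1, u3, ?_, ?_⟩
  · rw [h5, h6]; exact h1
  · rw [h5, h6]; exact h2

end

section

variable {R : Type} [Ring R] {u m g m' g' : Type} [Fintype u] [Fintype m] [Fintype g] [Fintype m']
  [Fintype g'] [DecidableEq u] [DecidableEq m] [DecidableEq g] [DecidableEq m'] [DecidableEq g']

/-- the contraction of the cone -/
def contr (p : Matrix g' g R) (s : Matrix g' m' R) (r1 : Matrix g m R) (r2 : Matrix m' m R) :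
    Matrix ((u ⊕ (g ⊕ m)) ⊕ (u ⊕ (g' ⊕ m'))) ((u ⊕ (g ⊕ m)) ⊕ (u ⊕ (g' ⊕ m'))) R :=
  fromBlocks (fromBlocks 0 0 0 (fromBlocks 0 r1 0 0)) 0 (dblk 1 p r2)
    (fromBlocks 0 0 0 (fromBlocks 0 s 0 0))

lemma contr_spec (D1 : Matrix g u R) (D2 : Matrix m g R) (D1' : Matrix g' u R)
    (D2' : Matrix m' g' R) (a : Matrix m m' R) (b : Matrix g g' R)
    (p : Matrix g' g R) (s : Matrix g' m' R) (r1 : Matrix g m R) (r2 : Matrix m' m R)
    (h1 : D1 = b * D1') (h2 : D2' * D1' = 0)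
    (h3 : fromBlocks (-D2) a p s * fromBlocks r1 b r2 D2' = 1)
    (h4 : fromBlocks r1 b r2 D2' * fromBlocks (-D2) a p s = 1) :
    fromBlocks (-blk D1 D2) (dblk 1 b a) 0 (blk D1' D2') * contr p s r1 r2 +
      contr p s r1 r2 * fromBlocks (-blk D1 D2) (dblk 1 b a) 0 (blk D1' D2') = 1 := by
  rw [fromBlocks_multiply, ← fromBlocks_one, fromBlocks_inj] at h3 h4
  obtain ⟨a1, a2, a3, a4⟩ := h3
  obtain ⟨b1, b2, b3, b4⟩ := h4
  have hp : p * D1 = D1' := by
    rw [h1, ← Matrix.mul_assoc, ← sub_eq_zero]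
    have : p * b = 1 - s * D2' := eq_sub_of_add_eq a4
    rw [this, Matrix.sub_mul, Matrix.one_mul, Matrix.mul_assoc, h2]
    simp
  let BP : Matrix (u ⊕ (g ⊕ m)) (u ⊕ (g ⊕ m)) R := blk D1 D2
  let BQ : Matrix (u ⊕ (g' ⊕ m')) (u ⊕ (g' ⊕ m')) R := blk D1' D2'
  let F : Matrix (u ⊕ (g ⊕ m)) (u ⊕ (g' ⊕ m')) R := dblk 1 b a
  let S11 : Matrix (u ⊕ (g ⊕ m)) (u ⊕ (g ⊕ m)) R := fromBlocks 0 0 0 (fromBlocks 0 r1 0 0)
  let S22 : Matrix (u ⊕ (g' ⊕ m')) (u ⊕ (g' ⊕ m')) R := fromBlocks 0 0 0 (fromBlocks 0 s 0 0)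
  let S21 : Matrix (u ⊕ (g' ⊕ m')) (u ⊕ (g ⊕ m)) R := dblk 1 p r2
  have e1 : -BP * S11 + F * S21 + S11 * -BP = 1 := by
    have c1 : (-(D2 * r1) + a * r2) = 1 := by rw [← a1, Matrix.neg_mul]
    have c2 : b * p + -(r1 * D2) = 1 := by rw [← b1, Matrix.mul_neg, add_comm]
    simp only [blk, dblk, BP, F, S11, S21, fromBlocks_multiply, fromBlocks_mul_fromRows,
      Matrix.mul_zero, Matrix.zero_mul, Matrix.mul_one, Matrix.neg_mul, Matrix.mul_neg,
      fromBlocks_neg, fromBlocks_add, add_zero, zero_add, neg_zero, fromRows_zero, c1, c2,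
      fromBlocks_one]
  have e2 : F * S22 + S11 * F = 0 := by
    have c1 : b * s + r1 * a = 0 := by rw [← b2, add_comm]
    simp only [dblk, F, S11, S22, fromBlocks_multiply,
      Matrix.mul_zero, Matrix.zero_mul, fromBlocks_add, add_zero, zero_add, c1,
      fromBlocks_zero]
  have e3 : BQ * S21 + S21 * -BP = 0 := by
    have c1 : D2' * p + -(r2 * D2) = 0 := by rw [← b3, Matrix.mul_neg, add_comm]
    simp only [blk, dblk, BP, BQ, S21, fromBlocks_multiply, fromBlocks_mul_fromRows,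
      Matrix.mul_zero, Matrix.zero_mul, Matrix.mul_one, Matrix.mul_neg,
      fromBlocks_neg, fromBlocks_add, add_zero, zero_add, neg_zero, c1, hp, add_neg_cancel,
      fromBlocks_zero]
  have e4 : BQ * S22 + (S21 * F + S22 * BQ) = 1 := by
    have c1 : D2' * s + r2 * a = 1 := by rw [← b4, add_comm]
    simp only [blk, dblk, BQ, F, S22, S21, fromBlocks_multiply, fromBlocks_mul_fromRows,
      Matrix.mul_zero, Matrix.zero_mul, Matrix.mul_one,
      fromBlocks_add, add_zero, zero_add, fromRows_zero, c1, a4,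
      fromBlocks_one]
  change fromBlocks (-BP) F 0 BQ * fromBlocks S11 0 S21 S22 +
    fromBlocks S11 0 S21 S22 * fromBlocks (-BP) F 0 BQ = 1
  simp only [fromBlocks_multiply, fromBlocks_add, Matrix.mul_zero, Matrix.zero_mul, zero_add,
    add_zero, e1, e2, e3, e4, fromBlocks_one]

end

section

variable {g m g' m' : Type}

/-- the degree function of the cone -/
def cdeg : (Unit ⊕ (g ⊕ m)) ⊕ (Unit ⊕ (g' ⊕ m')) → ℕ :=
  Sum.elim (fun i => (Sum.elim (fun _ => 0) (Sum.elim (fun _ => 1) (fun _ => 2)) :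
    Unit ⊕ (g ⊕ m) → ℕ) i + 1) (Sum.elim (fun _ => 0) (Sum.elim (fun _ => 1) (fun _ => 2)))

/-- the odd cells -/
def oddF : (m ⊕ g') ⊕ Unit → {i : (Unit ⊕ (g ⊕ m)) ⊕ (Unit ⊕ (g' ⊕ m')) // Odd (cdeg i)}
  | Sum.inl (Sum.inl r) => ⟨Sum.inl (Sum.inr (Sum.inr r)), by simp [cdeg]; decide⟩
  | Sum.inl (Sum.inr y) => ⟨Sum.inr (Sum.inr (Sum.inl y)), by simp [cdeg]⟩
  | Sum.inr u => ⟨Sum.inl (Sum.inl u), by simp [cdeg]⟩

/-- the even cells -/
def evenF : (g ⊕ m') ⊕ Unit → {i : (Unit ⊕ (g ⊕ m)) ⊕ (Unit ⊕ (g' ⊕ m')) // Even (cdeg i)}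
  | Sum.inl (Sum.inl r) => ⟨Sum.inl (Sum.inr (Sum.inl r)), by simp [cdeg]⟩
  | Sum.inl (Sum.inr y) => ⟨Sum.inr (Sum.inr (Sum.inr y)), by simp [cdeg]⟩
  | Sum.inr u => ⟨Sum.inr (Sum.inl u), by simp [cdeg]⟩

lemma oddF_bij : Function.Bijective (oddF : (m ⊕ g') ⊕ Unit → {i : (Unit ⊕ (g ⊕ m)) ⊕
    (Unit ⊕ (g' ⊕ m')) // Odd (cdeg i)}) := by
  constructor
  · rintro ((a | a) | a) ((b | b) | b) h <;> have h' := congrArg Subtype.val h <;> clear h <;>
      simp_all [oddF]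
  · rintro ⟨(i | i | i) | (i | i | i), hi⟩
    · exact ⟨Sum.inr i, rfl⟩
    · exfalso; revert hi; simp [cdeg]
    · exact ⟨Sum.inl (Sum.inl i), rfl⟩
    · exfalso; revert hi; simp [cdeg]
    · exact ⟨Sum.inl (Sum.inr i), rfl⟩
    · exfalso; revert hi; simp [cdeg]

lemma evenF_bij : Function.Bijective (evenF : (g ⊕ m') ⊕ Unit → {i : (Unit ⊕ (g ⊕ m)) ⊕
    (Unit ⊕ (g' ⊕ m')) // Even (cdeg i)}) := by
  constructor
  · rintro ((a | a) | a) ((b | b) | b) h <;> have h' := congrArg Subtype.val h <;> clear h <;>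
      simp_all [evenF]
  · rintro ⟨(i | i | i) | (i | i | i), hi⟩
    · exfalso; revert hi; simp [cdeg]
    · exact ⟨Sum.inl (Sum.inl i), rfl⟩
    · exfalso; revert hi; simp [cdeg]; decide
    · exact ⟨Sum.inr i, rfl⟩
    · exfalso; revert hi; simp [cdeg]
    · exact ⟨Sum.inl (Sum.inr i), rfl⟩

lemma sub_entries {R : Type} [Ring R] (D1 : Matrix g Unit R) (D2 : Matrix m g R)
    (D1' : Matrix g' Unit R) (D2' : Matrix m' g' R) (a : Matrix m m' R) (b : Matrix g g' R)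
    (p : Matrix g' g R) (s : Matrix g' m' R) (r1 : Matrix g m R) (r2 : Matrix m' m R) :
    (fromBlocks (-blk D1 D2) (dblk 1 b a) 0 (blk D1' D2') + contr p s r1 r2).submatrix
      (fun i => (oddF i).1) (fun j => (evenF j).1) =
    fromBlocks (fromBlocks (-D2) a p s) (fromRows 0 D1') 0 1 := by
  refine Matrix.ext fun i j => ?_
  rcases i with (i | i) | i <;> rcases j with (j | j) | j <;>
    simp [blk, dblk, contr, oddF, evenF]

end

theorem simpleEquiv_of_U {P Q : Pres} (f : CellMap P Q) (hf : Function.Bijective f.onPi)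
    (p : Matrix (Fin Q.gens) (Fin P.gens) (ZG Q.Pi))
    (s : Matrix (Fin Q.gens) (Fin Q.rels) (ZG Q.Pi))
    (r1 : Matrix (Fin P.gens) (Fin P.rels) (ZG Q.Pi))
    (r2 : Matrix (Fin Q.rels) (Fin P.rels) (ZG Q.Pi))
    (h3 : fromBlocks (-P.bd₂ f.onPi) f.mat₂ p s *
      fromBlocks r1 f.mat₁ r2 (Q.bd₂ (MonoidHom.id Q.Pi)) = 1)
    (h4 : fromBlocks r1 f.mat₁ r2 (Q.bd₂ (MonoidHom.id Q.Pi)) *
      fromBlocks (-P.bd₂ f.onPi) f.mat₂ p s = 1)
    (hU : TrivialInWh (fromBlocks (-P.bd₂ f.onPi) f.mat₂ p s)) : SimpleEquiv P Q := by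
  refine ⟨f, hf, contr p s r1 r2, ⟨?_, ?_⟩, ?_⟩
  · intro i j h
    rcases i with (i | i | i) | (i | i | i) <;> rcases j with (j | j | j) | (j | j | j) <;>
      first
      | rfl
      | (exfalso; exact h rfl)
  · exact contr_spec _ _ _ _ _ _ _ _ _ _ f.bd₁_comm (Q.bd₂_mul_bd₁ _) h3 h4
  · let D1' := Q.bd₁ (MonoidHom.id Q.Pi)
    apply triv_of_submatrix (Equiv.ofBijective _ oddF_bij) (Equiv.ofBijective _ evenF_bij)
    have e : (torsionMatrix (cone f.chainMap) (contr p s r1 r2)).submatrix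
        (Equiv.ofBijective _ oddF_bij) (Equiv.ofBijective _ evenF_bij) =
        fromBlocks (fromBlocks (-P.bd₂ f.onPi) f.mat₂ p s) (fromRows 0 D1') 0 1 :=
      sub_entries (P.bd₁ f.onPi) _ _ (Q.bd₂ (MonoidHom.id Q.Pi)) _ f.mat₁ _ _ r1 r2
    refine Eq.mpr (congrArg TrivialInWh e) ?_
    obtain ⟨U', hU', h5, h6⟩ := triv_inv hU
    let V : Matrix (Fin P.rels ⊕ Fin Q.gens) Unit (ZG Q.Pi) := fromRows 0 D1'
    have e2 : fromBlocks (fromBlocks (-P.bd₂ f.onPi) f.mat₂ p s) V 0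
        (1 : Matrix Unit Unit (ZG Q.Pi)) =
        fromBlocks (fromBlocks (-P.bd₂ f.onPi) f.mat₂ p s) 0 0 (1 : Matrix Unit Unit (ZG Q.Pi)) *
          fromBlocks 1 (U' * V) 0 (1 : Matrix Unit Unit (ZG Q.Pi)) := by
      rw [fromBlocks_multiply, ← Matrix.mul_assoc, h5]
      simp
    change TrivialInWh (fromBlocks (fromBlocks (-P.bd₂ f.onPi) f.mat₂ p s) V 0
        (1 : Matrix Unit Unit (ZG Q.Pi)))
    rw [e2]
    exact triv_mul (triv_block hU) (triv_of_mem (El_upper _))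

end Pool.SH
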