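import Pool.Agent.Lib_helper59.SH.Fox

/-!
# Lemmas for the chain complex of a presentation and the chain map of a cellular map
-/

set_option autoImplicit false

namespace Pool.SH

open Matrix

lemma blk_mul_blk {R : Type} [Ring R] {a b c : Type} [Fintype a] [Fintype b] [Fintype c]
    (b1 : Matrix b a R) (b2 : Matrix c b R) (h : b2 * b1 = 0) : blk b1 b2 * blk b1 b2 = 0 := by
  refine Matrix.ext fun i j => ?_
  rcases i with (i | i | i) <;> rcases j with (j | j | j) <;>
    simp [Matrix.mul_apply, Fintype.sum_sum_type, blk]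
  rw [← Matrix.mul_apply, h]
  rfl

lemma blk_mul_dblk {R : Type} [Ring R] {a b c a' b' c' : Type} [Fintype a] [Fintype b] [Fintype c]
    [Fintype a'] [Fintype b'] [Fintype c']
    {b1 : Matrix b a R} {b2 : Matrix c b R} {b1' : Matrix b' a' R} {b2' : Matrix c' b' R}
    {f0 : Matrix a a' R} {f1 : Matrix b b' R} {f2 : Matrix c c' R}
    (h1 : b1 * f0 = f1 * b1') (h2 : b2 * f1 = f2 * b2') :
    blk b1 b2 * dblk f0 f1 f2 = dblk f0 f1 f2 * blk b1' b2' := by
  refine Matrix.ext fun i j => ?_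
  rcases i with (i | i | i) <;> rcases j with (j | j | j) <;>
    simp [Matrix.mul_apply, Fintype.sum_sum_type, blk, dblk]
  · rw [← Matrix.mul_apply, h1, Matrix.mul_apply]
  · rw [← Matrix.mul_apply, h2, Matrix.mul_apply]

section

variable (P : Pres) {H : Type} [Group H] (ψ : P.Pi →* H)

lemma Pres.bd₂_apply (r : Fin P.rels) : P.bd₂ ψ r = fx (ψ.comp P.proj) (P.rel r) := by
  rw [← fox_eq_fx]
  rfl

lemma Pres.bd₁_apply (x : Fin P.gens) (u : Unit) :
    P.bd₁ ψ x u = ofG ((ψ.comp P.proj) (FreeGroup.of x)) - 1 := rfl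

lemma Pres.proj_rel (r : Fin P.rels) : P.proj (P.rel r) = 1 :=
  PresentedGroup.one_of_mem (Set.mem_range_self r)

theorem Pres.bd₂_mul_bd₁ : P.bd₂ ψ * P.bd₁ ψ = 0 := by
  refine Matrix.ext fun r u => ?_
  rw [Matrix.mul_apply]
  have := sum_fx (ψ.comp P.proj) (P.rel r)
  simp only [MonoidHom.comp_apply, P.proj_rel, map_one, sub_self] at this
  rw [Matrix.zero_apply, ← this]
  refine Finset.sum_congr rfl fun x _ => ?_
  rw [P.bd₂_apply]
  rfl

end

lemma Pres.fx_bdry (Q : Pres) {H : Type} [Group H] (ψ : Q.Pi →* H)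
    (c : FreeGroup (FreeGroup (Fin Q.gens) × Fin Q.rels)) :
    fx (ψ.comp Q.proj) (Q.bdry c) =
      ∑ s, (Multiplicative.toAdd (Q.fillChain ψ c)) s • fx (ψ.comp Q.proj) (Q.rel s) := by
  let A : FreeGroup (FreeGroup (Fin Q.gens) × Fin Q.rels) →*
      Multiplicative (Fin Q.gens → ZG H) :=
    { toFun := fun c => Multiplicative.ofAdd (fx (ψ.comp Q.proj) (Q.bdry c))
      map_one' := by simp
      map_mul' := fun a b => by
        rw [← ofAdd_add, map_mul, fx_mul, MonoidHom.comp_apply, Q.proj_bdry, map_one, map_one,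
          one_smul] }
  let B : FreeGroup (FreeGroup (Fin Q.gens) × Fin Q.rels) →*
      Multiplicative (Fin Q.gens → ZG H) :=
    { toFun := fun c => Multiplicative.ofAdd
        (∑ s, (Multiplicative.toAdd (Q.fillChain ψ c)) s • fx (ψ.comp Q.proj) (Q.rel s))
      map_one' := by simp
      map_mul' := fun a b => by
        rw [← ofAdd_add, map_mul, toAdd_mul, ← Finset.sum_add_distrib]
        simp only [Pi.add_apply, add_smul] }
  have hAB : A = B := by
    refine FreeGroup.ext_hom _ _ fun ⟨w, r⟩ => ?_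
    change Multiplicative.ofAdd _ = Multiplicative.ofAdd _
    congr 1
    have e1 : Q.bdry (FreeGroup.of (w, r)) = w * Q.rel r * w⁻¹ := by simp [Pres.bdry]
    have e2 : Multiplicative.toAdd (Q.fillChain ψ (FreeGroup.of (w, r))) =
        Pi.single r (ofG (ψ (Q.proj w))) := by simp [Pres.fillChain]
    rw [e1, e2, fx_mul, fx_mul, fx_inv, Finset.sum_eq_single r]
    · rw [Pi.single_eq_same, map_mul (ψ.comp Q.proj), MonoidHom.comp_apply, MonoidHom.comp_apply,
        Q.proj_rel, map_one, mul_one, smul_neg, ← mul_smul, ← map_mul, mul_inv_cancel, map_one,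
        one_smul]
      abel
    · intro s _ hs
      rw [Pi.single_eq_of_ne hs, zero_smul]
    · simp
  have := DFunLike.congr_fun hAB c
  exact Multiplicative.ofAdd.injective this

lemma CellMap.mat₁_apply {P Q : Pres} (f : CellMap P Q) (x : Fin P.gens) :
    f.mat₁ x = fx Q.proj (f.word x) := by
  rw [← fox_eq_fx]
  rfl

lemma CellMap.onPi_proj {P Q : Pres} (f : CellMap P Q) (w : FreeGroup (Fin P.gens)) :
    f.onPi (P.proj w) = Q.proj (FreeGroup.lift f.word w) := by
  have : f.onPi.comp P.proj = Q.proj.comp (FreeGroup.lift f.word) := by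
    ext x
    simp only [MonoidHom.comp_apply, FreeGroup.lift_apply_of]
    exact PresentedGroup.toGroup.of _
  exact DFunLike.congr_fun this w

lemma CellMap.bd₁_comm {P Q : Pres} (f : CellMap P Q) :
    P.bd₁ f.onPi = f.mat₁ * Q.bd₁ (MonoidHom.id Q.Pi) := by
  refine Matrix.ext fun x u => ?_
  rw [Matrix.mul_apply, P.bd₁_apply, MonoidHom.comp_apply, f.onPi_proj, FreeGroup.lift_apply_of,
    ← sum_fx, f.mat₁_apply]
  rfl

lemma CellMap.bd₂_comm {P Q : Pres} (f : CellMap P Q) :
    P.bd₂ f.onPi * f.mat₁ = f.mat₂ * Q.bd₂ (MonoidHom.id Q.Pi) := by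
  refine Matrix.ext fun r y => ?_
  have h1 := fx_map Q.proj (FreeGroup.lift f.word) (P.rel r)
  have h2 : Q.proj.comp (FreeGroup.lift f.word) = f.onPi.comp P.proj := by
    ext x; simp [f.onPi_proj]
  rw [h2, ← f.bdry_fill] at h1
  have h3 := Q.fx_bdry (MonoidHom.id Q.Pi) (f.fill r)
  rw [MonoidHom.id_comp] at h3
  have h4 := congrFun (h1.symm.trans h3) y
  simp only [Finset.sum_apply, Pi.smul_apply, smul_eq_mul, FreeGroup.lift_apply_of] at h4
  rw [Matrix.mul_apply, Matrix.mul_apply]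
  simp only [P.bd₂_apply, Q.bd₂_apply, f.mat₁_apply]
  exact h4

end Pool.SH
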