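import Mathlib

/-!
# Presentation complexes, cellular maps, Whitehead torsion, simple-homotopy equivalence

Definitions for `MP_b73599_gt`.

* `Pres` : a finite presentation, i.e. the finite connected 2-complex `K_P` with one vertex, one
  edge for each generator and one face for each relator;
* `CellMap P Q` : a cellular map `K_P → K_Q`;
* `BasedComplex R` : a finite chain complex of finitely generated free based left `R`-modules;
* `Pres.complex` : the cellular chain complex of the universal cover (Fox derivatives);
* `cone`, `IsContraction`, `torsionMatrix`, `TrivialInWh` : the Whitehead torsion of a chain map;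
* `SimpleEquiv P Q` : `K_P` and `K_Q` are simple-homotopy equivalent.
-/

set_option autoImplicit false

namespace Pool.SH

open Matrix

/-- the integral group ring -/
abbrev ZG (H : Type) [Group H] : Type := MonoidAlgebra ℤ H

/-- group elements as elements of the group ring -/
noncomputable def ofG {H : Type} [Group H] : H →* ZG H := MonoidAlgebra.of ℤ H

/-! ### Presentations and maps between them -/

/-- A finite presentation `⟨ Fin gens | rel 0, rel 1, … ⟩`; we think of it as the finite 2-complex
with one vertex, oriented edges indexed by `Fin gens` and faces attached along the words `rel r`. -/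
structure Pres where
  /-- number of generators (edges) -/
  gens : ℕ
  /-- number of relators (faces) -/
  rels : ℕ
  /-- the relators (attaching maps of the faces) -/
  rel : Fin rels → FreeGroup (Fin gens)

namespace Pres

/-- the fundamental group of the presentation complex -/
abbrev Pi (P : Pres) : Type := PresentedGroup (Set.range P.rel)

/-- the homomorphism from the free group `π₁` (1-skeleton) onto the fundamental group -/
abbrev proj (P : Pres) : FreeGroup (Fin P.gens) →* P.Pi := PresentedGroup.mk (Set.range P.rel)

/-- the Euler characteristic of the presentation complex -/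
def chi (P : Pres) : ℤ := 1 - P.gens + P.rels

/-- The boundary map of (the free group covering) the free crossed module
`π₂(K, K¹) → π₁(K¹)`: the generator `(w, r)` is the face `r` with the tail `w`. -/
def bdry (P : Pres) : FreeGroup (FreeGroup (Fin P.gens) × Fin P.rels) →* FreeGroup (Fin P.gens) :=
  FreeGroup.lift fun p => p.1 * P.rel p.2 * p.1⁻¹

end Pres

/-- A cellular map `K_P → K_Q`: every edge of `K_P` goes to an edge loop (a word) of `K_Q`, and
every face of `K_P` is mapped into `K_Q` by a filling of the image of its attaching map,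
i.e. by a product of conjugates of faces of `K_Q` with the correct boundary. -/
structure CellMap (P Q : Pres) where
  /-- images of the edges -/
  word : Fin P.gens → FreeGroup (Fin Q.gens)
  /-- images of the faces -/
  fill : Fin P.rels → FreeGroup (FreeGroup (Fin Q.gens) × Fin Q.rels)
  /-- the boundary of the image of a face is the image of its boundary -/
  bdry_fill : ∀ r, Q.bdry (fill r) = FreeGroup.lift word (P.rel r)

theorem Pres.proj_bdry (Q : Pres) (c : FreeGroup (FreeGroup (Fin Q.gens) × Fin Q.rels)) :
    Q.proj (Q.bdry c) = 1 := by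
  have h : Q.proj.comp Q.bdry = 1 := by
    ext ⟨w, r⟩
    have h1 : Q.proj (Q.rel r) = 1 :=
      PresentedGroup.one_of_mem (Set.mem_range_self r)
    simp [Pres.bdry, h1]
  exact DFunLike.congr_fun h c

/-- the homomorphism of fundamental groups induced by a cellular map -/
def CellMap.onPi {P Q : Pres} (f : CellMap P Q) : P.Pi →* Q.Pi :=
  PresentedGroup.toGroup (f := fun x => Q.proj (f.word x)) (by
    rintro _ ⟨r, rfl⟩
    have h : FreeGroup.lift (fun x => Q.proj (f.word x)) = Q.proj.comp (FreeGroup.lift f.word) := by
      ext x; simp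
    rw [h, MonoidHom.comp_apply, ← f.bdry_fill, Q.proj_bdry])

/-! ### Based chain complexes, cones, contractions, torsion -/

/-- A finite chain complex of finitely generated free based left modules over `R` (row vectors; the
matrix `bd` acts from the right).  `cell` is the union of the bases, `deg` the degree. -/
structure BasedComplex (R : Type) [Ring R] where
  /-- the basis elements (cells) of all degrees -/
  cell : Type
  [fin : Fintype cell]
  [dec : DecidableEq cell]
  /-- the degree of a basis element -/
  deg : cell → ℕ
  /-- the boundary matrix: the boundary of `i` is `∑ j, bd i j • j` -/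
  bd : Matrix cell cell R
  bd_deg : ∀ i j, bd i j ≠ 0 → deg i = deg j + 1
  bd_bd : bd * bd = 0

attribute [instance] BasedComplex.fin BasedComplex.dec

/-- chain maps of based complexes -/
structure ChainMap {R : Type} [Ring R] (C D : BasedComplex R) where
  /-- the matrix of the chain map -/
  mat : Matrix C.cell D.cell R
  mat_deg : ∀ i j, mat i j ≠ 0 → C.deg i = D.deg j
  comm : C.bd * mat = mat * D.bd

/-- The mapping cone: `cone f` in degree `n` is `C_{n-1} ⊕ D_n`, with boundary
`(x, y) ↦ (-∂x, f x + ∂y)`. -/
def cone {R : Type} [Ring R] {C D : BasedComplex R} (f : ChainMap C D) : BasedComplex R where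
  cell := C.cell ⊕ D.cell
  deg := Sum.elim (fun i => C.deg i + 1) D.deg
  bd := fromBlocks (-C.bd) f.mat 0 D.bd
  bd_deg := by
    rintro (i | i) (j | j) h
    · simp only [fromBlocks_apply₁₁, Matrix.neg_apply, ne_eq, neg_eq_zero] at h
      simp only [Sum.elim_inl, C.bd_deg i j h]
    · simp only [fromBlocks_apply₁₂] at h
      simp only [Sum.elim_inl, Sum.elim_inr, f.mat_deg i j h]
    · simp at h
    · simp only [fromBlocks_apply₂₂] at h
      simp only [Sum.elim_inr, D.bd_deg i j h]
  bd_bd := by
    rw [fromBlocks_multiply]
    simp [C.bd_bd, D.bd_bd, f.comm]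

/-- `S` is a contraction of the based complex `C`: it raises the degree by one and
`∂ S + S ∂ = 1`. -/
def IsContraction {R : Type} [Ring R] (C : BasedComplex R) (S : Matrix C.cell C.cell R) : Prop :=
  (∀ i j, S i j ≠ 0 → C.deg j = C.deg i + 1) ∧ C.bd * S + S * C.bd = 1

/-- the matrix of `∂ + S : C_odd → C_even` -/
def torsionMatrix {R : Type} [Ring R] (C : BasedComplex R) (S : Matrix C.cell C.cell R) :
    Matrix {i : C.cell // Odd (C.deg i)} {j : C.cell // Even (C.deg j)} R :=
  (C.bd + S).submatrix Subtype.val Subtype.val

/-- the elementary matrices `1 + a E_{ij}`, `i ≠ j`, and the diagonal matrices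
`diag (1, …, 1, ± h, 1, …, 1)`, `h ∈ H`. -/
def whGens (H : Type) [Group H] (κ : Type) [Fintype κ] [DecidableEq κ] :
    Set (Matrix κ κ (ZG H)) :=
  {T | ∃ i j, i ≠ j ∧ ∃ a, T = 1 + single i j a} ∪
    {T | ∃ i h, T = diagonal (Function.update 1 i (ofG h)) ∨
      T = diagonal (Function.update 1 i (-ofG h))}

/-- The class of the matrix `M` in the Whitehead group `Wh(H) = GL(ℤH) / ⟨E(ℤH), ± H⟩` is trivial:
after adding an identity matrix and identifying the rows and the columns with `Fin n`, it is a
product of elementary matrices and matrices `diag (1, …, 1, ± h, 1, …, 1)`. -/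
def TrivialInWh {H : Type} [Group H] {α β : Type} (M : Matrix α β (ZG H)) : Prop :=
  ∃ (p n : ℕ) (e₁ : α ⊕ Fin p ≃ Fin n) (e₂ : β ⊕ Fin p ≃ Fin n),
    reindex e₁ e₂ (fromBlocks M 0 0 (1 : Matrix (Fin p) (Fin p) (ZG H))) ∈
      Submonoid.closure (whGens H (Fin n))

/-! ### The cellular chain complex of the universal cover -/

/-- The Fox derivative of a word: the cellular 1-chain of the lift of the edge path `w` which
starts at the base vertex; `θ` is the image of the generators in `H`. -/
noncomputable def foxWord {H X : Type} [Group H] [DecidableEq X] (θ : X → H) :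
    List (X × Bool) → X → ZG H
  | [], _ => 0
  | (y, true) :: t, x => (if y = x then 1 else 0) + ofG (θ y) * foxWord θ t x
  | (y, false) :: t, x => ofG (θ y)⁻¹ * ((if y = x then -1 else 0) + foxWord θ t x)

/-- Fox derivatives `∂ w / ∂ x` with values in `ℤH`. -/
noncomputable def fox {H X : Type} [Group H] [DecidableEq X] (θ : X → H) (w : FreeGroup X) (x : X) :
    ZG H := foxWord θ w.toWord x

/-- The matrix of the boundary `C₁ → C₀` -/
noncomputable def Pres.bd₁ (P : Pres) {H : Type} [Group H] (ψ : P.Pi →* H) :
    Matrix (Fin P.gens) Unit (ZG H) :=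
  Matrix.of fun x _ => ofG (ψ (PresentedGroup.of x)) - 1

/-- The matrix of the boundary `C₂ → C₁` -/
noncomputable def Pres.bd₂ (P : Pres) {H : Type} [Group H] (ψ : P.Pi →* H) :
    Matrix (Fin P.rels) (Fin P.gens) (ZG H) :=
  Matrix.of fun r x => fox (fun y => ψ (PresentedGroup.of y)) (P.rel r) x

/-- The 2-chain of a filling: the generator `(w, r)` (the face `r` with the tail `w`) goes to
`w • e_r`. -/
noncomputable def Pres.fillChain (Q : Pres) {H : Type} [Group H] (ψ : Q.Pi →* H) :
    FreeGroup (FreeGroup (Fin Q.gens) × Fin Q.rels) →* Multiplicative (Fin Q.rels → ZG H) :=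
  FreeGroup.lift fun p => Multiplicative.ofAdd (Pi.single p.2 (ofG (ψ (Q.proj p.1))))

/-- the matrix on 1-chains of the chain map of a cellular map -/
noncomputable def CellMap.mat₁ {P Q : Pres} (f : CellMap P Q) :
    Matrix (Fin P.gens) (Fin Q.gens) (ZG Q.Pi) :=
  Matrix.of fun x y => fox (fun z => (PresentedGroup.of z : Q.Pi)) (f.word x) y

/-- the matrix on 2-chains of the chain map of a cellular map -/
noncomputable def CellMap.mat₂ {P Q : Pres} (f : CellMap P Q) :
    Matrix (Fin P.rels) (Fin Q.rels) (ZG Q.Pi) :=
  Matrix.of fun r s => Multiplicative.toAdd (Q.fillChain (MonoidHom.id Q.Pi) (f.fill r)) s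

/-- the total boundary matrix of a complex `C₂ → C₁ → C₀`; the three summands are the bases of
`C₀`, `C₁`, `C₂` -/
def blk {R : Type} [Ring R] {a b c : Type} (b1 : Matrix b a R) (b2 : Matrix c b R) :
    Matrix (a ⊕ (b ⊕ c)) (a ⊕ (b ⊕ c)) R :=
  fromBlocks 0 0 (fromRows b1 0) (fromBlocks 0 0 b2 0)

/-- a block diagonal matrix with three blocks -/
def dblk {R : Type} [Ring R] {a b c a' b' c' : Type} (f0 : Matrix a a' R) (f1 : Matrix b b' R)
    (f2 : Matrix c c' R) : Matrix (a ⊕ (b ⊕ c)) (a' ⊕ (b' ⊕ c')) R :=
  fromBlocks f0 0 0 (fromBlocks f1 0 0 f2)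

/-- `χ_min(G)`: the minimal Euler characteristic of a presentation complex with fundamental
group `G` -/
noncomputable def chiMin (G : Type) [Group G] : ℤ :=
  sInf {n : ℤ | ∃ P : Pres, Nonempty (P.Pi ≃* G) ∧ P.chi = n}

end Pool.SH
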