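import Pool.Agent.Lib_helper59.SH.Defs

/-!
# Fox calculus
-/

set_option autoImplicit false

namespace Pool.SH

open Matrix

section Mag

/-- the semidirect product `M ⋊ H` -/
@[ext] structure Mag (H M : Type) where
  g : H
  v : M

variable {H M : Type} [Group H] [AddCommGroup M] [Module (ZG H) M]

namespace Mag

noncomputable instance : Mul (Mag H M) := ⟨fun a b => ⟨a.g * b.g, a.v + ofG a.g • b.v⟩⟩
instance : One (Mag H M) := ⟨⟨1, 0⟩⟩
noncomputable instance : Inv (Mag H M) := ⟨fun a => ⟨a.g⁻¹, -(ofG a.g⁻¹ • a.v)⟩⟩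

@[simp] lemma mul_g (a b : Mag H M) : (a * b).g = a.g * b.g := rfl
@[simp] lemma mul_v (a b : Mag H M) : (a * b).v = a.v + ofG a.g • b.v := rfl
omit [Module (ZG H) M] in
@[simp] lemma one_g : (1 : Mag H M).g = 1 := rfl
omit [Module (ZG H) M] in
@[simp] lemma one_v : (1 : Mag H M).v = 0 := rfl
@[simp] lemma inv_g (a : Mag H M) : (a⁻¹).g = a.g⁻¹ := rfl
@[simp] lemma inv_v (a : Mag H M) : (a⁻¹).v = -(ofG a.g⁻¹ • a.v) := rfl

noncomputable instance : Group (Mag H M) := Group.ofLeftAxioms
  (by
    intro a b c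
    ext
    · simp [mul_assoc]
    · simp only [mul_v, mul_g, smul_add, map_mul, mul_smul, add_assoc])
  (by intro a; ext <;> simp)
  (by intro a; ext <;> simp)

/-- the projection -/
def toG : Mag H M →* H where
  toFun a := a.g
  map_one' := rfl
  map_mul' _ _ := rfl

end Mag

variable {X : Type}

/-- the homomorphism `w ↦ (θ w, d w)` -/
noncomputable def magHom (θ : FreeGroup X →* H) (f : X → M) : FreeGroup X →* Mag H M :=
  FreeGroup.lift fun x => ⟨θ (FreeGroup.of x), f x⟩

lemma magHom_g (θ : FreeGroup X →* H) (f : X → M) (w : FreeGroup X) :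
    (magHom θ f w).g = θ w := by
  have : (Mag.toG.comp (magHom θ f)) = θ := by
    ext x; simp [magHom, Mag.toG]
  exact DFunLike.congr_fun this w

/-- the crossed homomorphism `d : FreeGroup X → M` with `d x = f x`. -/
noncomputable def crossed (θ : FreeGroup X →* H) (f : X → M) (w : FreeGroup X) : M :=
  (magHom θ f w).v

lemma crossed_mul (θ : FreeGroup X →* H) (f : X → M) (u w : FreeGroup X) :
    crossed θ f (u * w) = crossed θ f u + ofG (θ u) • crossed θ f w := by
  simp [crossed, magHom_g]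

@[simp] lemma crossed_one (θ : FreeGroup X →* H) (f : X → M) : crossed θ f 1 = 0 := by
  simp [crossed]

@[simp] lemma crossed_of (θ : FreeGroup X →* H) (f : X → M) (x : X) :
    crossed θ f (FreeGroup.of x) = f x := by
  simp [crossed, magHom]

lemma crossed_inv (θ : FreeGroup X →* H) (f : X → M) (w : FreeGroup X) :
    crossed θ f w⁻¹ = -(ofG (θ w)⁻¹ • crossed θ f w) := by
  simp [crossed, magHom_g]

/-- uniqueness of crossed homomorphisms -/
lemma crossed_unique (θ : FreeGroup X →* H) (f : X → M) (d : FreeGroup X → M)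
    (hd : ∀ u w, d (u * w) = d u + ofG (θ u) • d w) (hx : ∀ x, d (FreeGroup.of x) = f x)
    (w : FreeGroup X) : d w = crossed θ f w := by
  have h1 : d 1 = 0 := by
    have := hd 1 1
    simpa using this
  let D : FreeGroup X →* Mag H M :=
    { toFun := fun w => ⟨θ w, d w⟩
      map_one' := by ext <;> simp [h1]
      map_mul' := fun u w => by ext <;> simp [hd] }
  have : D = magHom θ f := by
    ext x
    · simp [D, magHom]
    · simp [D, magHom, hx]
  have h2 := DFunLike.congr_fun this w
  exact congrArg Mag.v h2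

end Mag

section Fox

variable {H : Type} [Group H] {X : Type} [DecidableEq X]

lemma foxWord_eq (θ : FreeGroup X →* H) (L : List (X × Bool)) :
    foxWord (fun x => θ (FreeGroup.of x)) L =
      crossed θ (fun x => (Pi.single x 1 : X → ZG H)) (FreeGroup.mk L) := by
  induction L with
  | nil =>
    funext x
    have : (FreeGroup.mk ([] : List (X × Bool))) = 1 := rfl
    rw [this, crossed_one]
    rfl
  | cons a t ih =>
    obtain ⟨y, b⟩ := a
    have hcons : FreeGroup.mk ((y, b) :: t) = FreeGroup.mk [(y, b)] * FreeGroup.mk t := rfl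
    rw [hcons, crossed_mul, ← ih]
    funext x
    cases b with
    | true =>
      have : FreeGroup.mk [(y, true)] = FreeGroup.of y := rfl
      rw [this, crossed_of, foxWord]
      simp [Pi.single_apply, eq_comm]
    | false =>
      have : FreeGroup.mk [(y, false)] = (FreeGroup.of y)⁻¹ := rfl
      rw [this, crossed_inv, crossed_of, foxWord]
      simp only [map_inv, Pi.add_apply, Pi.neg_apply, Pi.smul_apply, Pi.single_apply, smul_eq_mul,
        mul_add]
      by_cases h : y = x
      · subst h; simp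
      · have h' : ¬ (x = y) := fun e => h e.symm
        simp [h, h']

lemma fox_eq (θ : FreeGroup X →* H) (w : FreeGroup X) :
    fox (fun x => θ (FreeGroup.of x)) w = crossed θ (fun x => (Pi.single x 1 : X → ZG H)) w := by
  funext x
  rw [fox, foxWord_eq, FreeGroup.mk_toWord]

/-- the crossed homomorphism `w ↦ (∂ w / ∂ x)_x` -/
noncomputable def fx (θ : FreeGroup X →* H) (w : FreeGroup X) : X → ZG H :=
  crossed θ (fun x => (Pi.single x 1 : X → ZG H)) w

lemma fox_eq_fx (θ : FreeGroup X →* H) (w : FreeGroup X) :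
    fox (fun x => θ (FreeGroup.of x)) w = fx θ w := fox_eq θ w

lemma fx_mul (θ : FreeGroup X →* H) (u w : FreeGroup X) :
    fx θ (u * w) = fx θ u + ofG (θ u) • fx θ w := crossed_mul _ _ _ _

@[simp] lemma fx_one (θ : FreeGroup X →* H) : fx θ 1 = 0 := crossed_one _ _

@[simp] lemma fx_of (θ : FreeGroup X →* H) (x : X) :
    fx θ (FreeGroup.of x) = Pi.single x 1 := crossed_of _ _ _

lemma fx_inv (θ : FreeGroup X →* H) (w : FreeGroup X) :
    fx θ w⁻¹ = -(ofG (θ w)⁻¹ • fx θ w) := crossed_inv _ _ _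

variable [Fintype X]

/-- crossed homomorphisms in terms of Fox derivatives -/
lemma crossed_eq_sum {M : Type} [AddCommGroup M] [Module (ZG H) M] (θ : FreeGroup X →* H)
    (f : X → M) (w : FreeGroup X) : crossed θ f w = ∑ x, fx θ w x • f x := by
  symm
  apply crossed_unique θ f (fun w => ∑ x, fx θ w x • f x)
  · intro u w
    simp only [fx_mul, Pi.add_apply, Pi.smul_apply, smul_eq_mul, add_smul, mul_smul,
      Finset.sum_add_distrib, Finset.smul_sum]
  · intro x
    simp only [fx_of]
    rw [Finset.sum_eq_single x]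
    · simp
    · intro y _ hy
      rw [Pi.single_eq_of_ne hy, zero_smul]
    · simp

/-- uniqueness of crossed homomorphisms, in terms of Fox derivatives -/
lemma eq_sum_fx {M : Type} [AddCommGroup M] [Module (ZG H) M] (θ : FreeGroup X →* H)
    (d : FreeGroup X → M) (hd : ∀ u w, d (u * w) = d u + ofG (θ u) • d w) (w : FreeGroup X) :
    d w = ∑ x, fx θ w x • d (FreeGroup.of x) := by
  rw [← crossed_eq_sum]
  exact crossed_unique θ _ d hd (fun x => rfl) w

/-- fundamental formula of Fox calculus -/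
lemma sum_fx (θ : FreeGroup X →* H) (w : FreeGroup X) :
    ∑ x, fx θ w x * (ofG (θ (FreeGroup.of x)) - 1) = ofG (θ w) - 1 := by
  have := eq_sum_fx (M := ZG H) θ (fun w => ofG (θ w) - 1) (by
    intro u w
    simp only [map_mul, smul_eq_mul]
    noncomm_ring) w
  rw [this]
  rfl

/-- chain rule -/
lemma fx_map {Y : Type} [DecidableEq Y] (θ : FreeGroup Y →* H)
    (φ : FreeGroup X →* FreeGroup Y) (w : FreeGroup X) :
    fx θ (φ w) = ∑ x, fx (θ.comp φ) w x • fx θ (φ (FreeGroup.of x)) := by
  refine eq_sum_fx (θ.comp φ) (fun w => fx θ (φ w)) ?_ w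
  intro u w
  simp [fx_mul]

end Fox

section Magnus

variable {H : Type} [Group H] {X : Type} [DecidableEq X] [Fintype X]

/-- additive maps out of the group ring -/
noncomputable def liftZ {A : Type} [AddCommGroup A] (f : H → A) : ZG H →+ A :=
  (Finsupp.liftAddHom fun h => zmultiplesHom A (f h)).comp
    (MonoidAlgebra.coeffAddEquiv : ZG H ≃+ (H →₀ ℤ)).toAddMonoidHom

@[simp] lemma liftZ_ofG {A : Type} [AddCommGroup A] (f : H → A) (h : H) :
    liftZ f (ofG h) = f h := by
  simp [liftZ, ofG]

lemma addHom_ext_ofG {A : Type} [AddCommGroup A] {f g : ZG H →+ A}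
    (h : ∀ x : H, f (ofG x) = g (ofG x)) : f = g := by
  apply MonoidAlgebra.addHom_ext'
  intro m
  ext
  simpa [ofG] using h m

lemma addHom_ext_pi {A Y : Type} [Fintype Y] [DecidableEq Y] [AddCommGroup A]
    {f g : (Y → ZG H) →+ A}
    (h : ∀ (x : H) (y : Y), f (ofG x • Pi.single y 1) = g (ofG x • Pi.single y 1)) : f = g := by
  have key : ∀ y, f.comp (AddMonoidHom.single (fun _ => ZG H) y) =
      g.comp (AddMonoidHom.single (fun _ => ZG H) y) := by
    intro y
    apply addHom_ext_ofG
    intro x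
    have := h x y
    simp only [AddMonoidHom.comp_apply, AddMonoidHom.single_apply]
    rwa [← Pi.single_smul, smul_eq_mul, mul_one] at this
  refine DFunLike.ext _ _ fun v => ?_
  calc f v = f (∑ y, Pi.single y (v y)) := by rw [Finset.univ_sum_single]
    _ = g (∑ y, Pi.single y (v y)) := by
      rw [map_sum, map_sum]
      exact Finset.sum_congr rfl fun y _ => DFunLike.congr_fun (key y) (v y)
    _ = g v := by rw [Finset.univ_sum_single]

variable (θ : FreeGroup X →* H)

/-- the class in `N^ab` of `s h * w * (s (h θ w))⁻¹` -/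
noncomputable def cc (s : H → FreeGroup X) (hs : ∀ h, θ (s h) = h) (h : H) (w : FreeGroup X) :
    Additive (Abelianization θ.ker) :=
  Additive.ofMul (Abelianization.of ⟨s h * w * (s (h * θ w))⁻¹, by
    rw [MonoidHom.mem_ker]; simp [hs]⟩)

variable {θ}

omit [DecidableEq X] [Fintype X] in
lemma cc_mul (s : H → FreeGroup X) (hs : ∀ h, θ (s h) = h) (h : H) (u w : FreeGroup X) :
    cc θ s hs h (u * w) = cc θ s hs h u + cc θ s hs (h * θ u) w := by
  unfold cc
  rw [← ofMul_mul, ← map_mul]
  congr 2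
  apply Subtype.ext
  simp [mul_assoc]

omit [DecidableEq X] [Fintype X] in
lemma cc_one (s : H → FreeGroup X) (hs : ∀ h, θ (s h) = h) (h : H) : cc θ s hs h 1 = 0 := by
  have := cc_mul s hs h 1 1
  simpa using this

omit [DecidableEq X] [Fintype X] in
lemma cc_inv (s : H → FreeGroup X) (hs : ∀ h, θ (s h) = h) (h : H) (w : FreeGroup X) :
    cc θ s hs h w⁻¹ = - cc θ s hs (h * (θ w)⁻¹) w := by
  have := cc_mul s hs (h * (θ w)⁻¹) w w⁻¹
  rw [mul_inv_cancel, cc_one, inv_mul_cancel_right] at this
  exact (neg_eq_of_add_eq_zero_right this.symm).symm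

/-- the additive map `(X → ℤH) → N^ab` -/
noncomputable def Lam (s : H → FreeGroup X) (hs : ∀ h, θ (s h) = h) :
    (X → ZG H) →+ Additive (Abelianization θ.ker) :=
  ∑ x, (liftZ fun h => cc θ s hs h (FreeGroup.of x)).comp (Pi.evalAddMonoidHom _ x)

lemma Lam_single (s : H → FreeGroup X) (hs : ∀ h, θ (s h) = h) (h : H) (x : X) :
    Lam s hs (ofG h • Pi.single x 1) = cc θ s hs h (FreeGroup.of x) := by
  unfold Lam
  rw [AddMonoidHom.finsetSum_apply, Finset.sum_eq_single x]
  · simp
  · intro y _ hy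
    simp [Pi.single_eq_of_ne hy]
  · simp

lemma Lam_fx (s : H → FreeGroup X) (hs : ∀ h, θ (s h) = h) (w : FreeGroup X) (h : H) :
    Lam s hs (ofG h • fx θ w) = cc θ s hs h w := by
  induction w using FreeGroup.induction_on generalizing h with
  | C1 => simp [cc_one]
  | of x => rw [fx_of, Lam_single]
  | inv_of x ih =>
    rw [fx_inv, cc_inv, ← ih, smul_neg, map_neg, ← mul_smul, ← map_mul]
  | mul u w ihu ihw =>
    rw [fx_mul, cc_mul, smul_add, map_add, ihu, ← ihw, ← mul_smul, ← map_mul]

omit [DecidableEq X] [Fintype X] in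
/-- a section with `s 1 = 1` -/
lemma exists_section (hθ : Function.Surjective θ) :
    ∃ s : H → FreeGroup X, (∀ h, θ (s h) = h) ∧ s 1 = 1 := by
  classical
  refine ⟨Function.update (Function.surjInv hθ) 1 1, fun h => ?_, by simp⟩
  by_cases hh : h = 1
  · subst hh; simp
  · rw [Function.update_of_ne hh]; exact Function.surjInv_eq hθ h

/-- the kernel of the Magnus embedding -/
theorem mem_commutator_of_fx (hθ : Function.Surjective θ) (w : FreeGroup X) (h1 : θ w = 1)
    (h2 : fx θ w = 0) : w ∈ ⁅θ.ker, θ.ker⁆ := by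
  obtain ⟨s, hs, hs1⟩ := exists_section hθ
  have h := Lam_fx s hs w 1
  rw [h2, smul_zero, map_zero] at h
  have h3 : (⟨w, h1⟩ : θ.ker) ∈ commutator θ.ker := by
    rw [← Abelianization.ker_of, MonoidHom.mem_ker]
    have e : (⟨s 1 * w * (s (1 * θ w))⁻¹, by rw [MonoidHom.mem_ker]; simp [hs]⟩ : θ.ker) =
        ⟨w, h1⟩ := by
      apply Subtype.ext; simp [hs1, h1]
    unfold cc at h
    rw [e] at h
    exact Additive.ofMul.injective h.symm
  have h4 := Subgroup.mem_map_of_mem θ.ker.subtype h3
  rw [Subgroup.map_subtype_commutator] at h4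
  exact h4

/-- Fox derivatives on `N^ab` -/
noncomputable def Dab (θ : FreeGroup X →* H) :
    Additive (Abelianization θ.ker) →+ (X → ZG H) :=
  MonoidHom.toAdditiveLeft (Abelianization.lift
    { toFun := fun n => Multiplicative.ofAdd (fx θ n.1)
      map_one' := by simp
      map_mul' := fun a b => by
        rw [← ofAdd_add]
        congr 1
        simp only [Subgroup.coe_mul, fx_mul]
        rw [(MonoidHom.mem_ker).1 a.2, map_one, one_smul] })

omit [Fintype X] in
lemma Dab_of (n : θ.ker) : Dab θ (Additive.ofMul (Abelianization.of n)) = fx θ n.1 := by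
  simp [Dab]

lemma Dab_Lam (s : H → FreeGroup X) (hs : ∀ h, θ (s h) = h) (v : X → ZG H) :
    Dab θ (Lam s hs v) =
      v - liftZ (fun h => fx θ (s h)) (∑ x, v x * (ofG (θ (FreeGroup.of x)) - 1)) := by
  let T : (X → ZG H) →+ ZG H :=
    ∑ x, (AddMonoidHom.mulRight (ofG (θ (FreeGroup.of x)) - 1)).comp (Pi.evalAddMonoidHom _ x)
  have hT : ∀ v, T v = ∑ x, v x * (ofG (θ (FreeGroup.of x)) - 1) := by
    intro v
    simp [T]
  have key : (Dab θ).comp (Lam s hs) = AddMonoidHom.id _ - (liftZ fun h => fx θ (s h)).comp T := by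
    apply addHom_ext_pi
    intro h x
    rw [AddMonoidHom.comp_apply, Lam_single]
    unfold cc
    rw [Dab_of, AddMonoidHom.sub_apply, AddMonoidHom.comp_apply, hT, AddMonoidHom.id_apply]
    have e1 : ∑ y, (ofG h • (Pi.single x 1 : X → ZG H)) y * (ofG (θ (FreeGroup.of y)) - 1) =
        ofG (h * θ (FreeGroup.of x)) - ofG h := by
      rw [Finset.sum_eq_single x]
      · simp [mul_sub]
      · intro y _ hy
        simp [Pi.single_eq_of_ne hy]
      · simp
    rw [e1, map_sub, liftZ_ofG, liftZ_ofG]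
    have e2 : ofG (θ (s h * FreeGroup.of x)) •
        (ofG (θ (s (h * θ (FreeGroup.of x))))⁻¹ • fx θ (s (h * θ (FreeGroup.of x)))) =
        fx θ (s (h * θ (FreeGroup.of x))) := by
      rw [← mul_smul, hs, map_mul θ, hs, ← map_mul ofG, mul_inv_cancel, map_one, one_smul]
    rw [fx_mul, fx_mul, fx_inv, fx_of, smul_neg, e2, hs]
    abel
  have := DFunLike.congr_fun key v
  simpa [hT] using this

/-- exactness at `C₁` -/
theorem exists_word_of_cycle (hθ : Function.Surjective θ) (v : X → ZG H)
    (hv : ∑ x, v x * (ofG (θ (FreeGroup.of x)) - 1) = 0) : ∃ n, θ n = 1 ∧ fx θ n = v := by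
  obtain ⟨s, hs, hs1⟩ := exists_section hθ
  have h := Dab_Lam s hs v
  rw [hv, map_zero, sub_zero] at h
  obtain ⟨n, hn⟩ : ∃ n, Additive.ofMul (Abelianization.of n) = Lam s hs v := by
    obtain ⟨n, hn⟩ := QuotientGroup.mk_surjective (s := commutator θ.ker)
      (Additive.toMul (Lam s hs v))
    exact ⟨n, congrArg Additive.ofMul hn⟩
  rw [← hn, Dab_of] at h
  exact ⟨n.1, n.2, h⟩

/-- realisation of 1-chains by words -/
theorem exists_word (hθ : Function.Surjective θ) (v : X → ZG H) (h : H)
    (hv : ∑ x, v x * (ofG (θ (FreeGroup.of x)) - 1) = ofG h - 1) :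
    ∃ w, θ w = h ∧ fx θ w = v := by
  obtain ⟨w₀, hw₀⟩ := hθ h
  obtain ⟨n, hn1, hn2⟩ := exists_word_of_cycle hθ (v - fx θ w₀) (by
    simp only [Pi.sub_apply, sub_mul, Finset.sum_sub_distrib]
    rw [hv, sum_fx, hw₀, sub_self])
  refine ⟨n * w₀, by simp [hn1, hw₀], ?_⟩
  rw [fx_mul, hn1, hn2]
  simp

end Magnus

end Pool.SH
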