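import Pool.Agent.Lib_helper59.SH.Assemble
import Pool.Agent.Lib_helper55.WhMain
import Pool.Agent.Lib_helper64.SH.Whitehead

/-!
# Finiteness of the number of simple-homotopy types at every level
-/

set_option autoImplicit false

namespace Pool.SH

open Matrix

section

variable {G : Type} [Group G]

/-- the linear map `v ↦ ∑ v_i (π i - 1)` -/
noncomputable def Dlin {x : ℕ} (π : Fin x → G) : (Fin x → ZG G) →ₗ[ZG G] ZG G :=
  (LinearMap.proj ()).comp (D1o π).vecMulLinear

lemma Dlin_apply {x : ℕ} (π : Fin x → G) (v : Fin x → ZG G) :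
    Dlin π v = (v ᵥ* D1o π) () := rfl

lemma Dlin_apply' {x : ℕ} (π : Fin x → G) (v : Fin x → ZG G) :
    Dlin π v = ∑ i, v i * (ofG (π i) - 1) := rfl

lemma aug_ofG (h : G) : Pool.Wh.aug ℤ G (ofG h) = 1 := by
  simp [ofG, Pool.Wh.aug]

lemma mem_range_Dlin {x : ℕ} {π : Fin x → G} (hπ : Function.Surjective π) (y : ZG G) :
    y ∈ LinearMap.range (Dlin π) ↔ Pool.Wh.aug ℤ G y = 0 := by
  constructor
  · rintro ⟨v, rfl⟩
    rw [Dlin_apply', map_sum]
    refine Finset.sum_eq_zero fun i _ => ?_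
    rw [map_mul, map_sub, aug_ofG, map_one, sub_self, mul_zero]
  · intro hy
    have key : ∀ y : ZG G, y - (Pool.Wh.aug ℤ G y) • (1 : ZG G) ∈ LinearMap.range (Dlin π) := by
      intro y
      induction y using MonoidAlgebra.induction_linear with
      | zero => rw [map_zero, zero_smul, sub_zero]; exact zero_mem _
      | add a b ha hb =>
        have : a + b - (Pool.Wh.aug ℤ G (a + b)) • (1 : ZG G) =
            (a - (Pool.Wh.aug ℤ G a) • (1 : ZG G)) + (b - (Pool.Wh.aug ℤ G b) • (1 : ZG G)) := by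
          rw [map_add, add_smul]; abel
        rw [this]
        exact add_mem ha hb
      | single m r =>
        obtain ⟨i, rfl⟩ := hπ m
        refine ⟨Pi.single i (r • 1), ?_⟩
        rw [Dlin_apply', Finset.sum_eq_single i]
        · have e1 : (MonoidAlgebra.single (π i) r : ZG G) = r • ofG (π i) := by simp [ofG]
          rw [Pi.single_eq_same, smul_mul_assoc, one_mul, smul_sub, e1, map_smul, aug_ofG]
          simp
        · intro j _ hj
          rw [Pi.single_eq_of_ne hj, zero_mul]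
        · simp
    have := key y
    rwa [hy, zero_smul, sub_zero] at this

lemma range_vecMulLinear {x m₀ : ℕ} {π : Fin x → G} {V : Matrix (Fin m₀) (Fin x) (ZG G)}
    (hV : ∀ v : Matrix Unit (Fin x) (ZG G), v * D1o π = 0 ↔
      ∃ u : Matrix Unit (Fin m₀) (ZG G), v = u * V) :
    LinearMap.range V.vecMulLinear = LinearMap.ker (Dlin π) := by
  ext v
  rw [LinearMap.mem_ker, LinearMap.mem_range]
  have h1 : Dlin π v = 0 ↔ (Matrix.of fun (_ : Unit) => v) * D1o π = 0 := by
    rw [Dlin_apply]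
    constructor
    · intro h
      refine Matrix.ext fun i j => ?_
      exact h
    · intro h
      exact congrFun (congrFun h ()) ()
  rw [h1, hV]
  constructor
  · rintro ⟨u, hu⟩
    refine ⟨Matrix.of fun _ => u, ?_⟩
    refine Matrix.ext fun i j => ?_
    exact (congrFun hu j).symm
  · rintro ⟨u, hu⟩
    refine ⟨u (), ?_⟩
    funext j
    exact (congrFun (congrFun hu ()) j).symm

end

/-- **Main theorem**: for every finite group `G` and every integer `n` the presentation complexes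
with fundamental group `G` and Euler characteristic `n` fall into finitely many classes such that
two complexes in the same class are simple-homotopy equivalent. -/
theorem finite_classes (G : Type) [Group G] [Finite G] (n : ℤ) :
    ∃ (k : ℕ) (c : {P : Pres // Nonempty (P.Pi ≃* G) ∧ P.chi = n} → Fin k),
      ∀ P Q, c P = c Q → SimpleEquiv P.1 Q.1 := by
  classical
  let N := Nat.card G
  let x := N + n.natAbs + 1
  let m₀ := (n - 1 + x).toNat
  have hm₀ : (m₀ : ℤ) = n - 1 + x := by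
    have : 0 ≤ n - 1 + x := by simp only [x]; omega
    exact Int.toNat_of_nonneg this
  have hN : N ≤ m₀ := by
    have : (N : ℤ) ≤ m₀ := by rw [hm₀]; simp only [x]; omega
    exact_mod_cast this
  let e : G ≃ Fin N := Finite.equivFin G
  let π : Fin x → G := fun i => if h : (i : ℕ) < N then e.symm ⟨i, h⟩ else 1
  have hπ : Function.Surjective π := by
    intro g
    have h1 := (e g).isLt
    refine ⟨⟨e g, by simp only [x]; omega⟩, ?_⟩
    simp [π]
  obtain ⟨k, c₀, hc₀⟩ := Pool.Wh.core G m₀ x (Dlin π) (mem_range_Dlin hπ)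
  have hred : ∀ P : {P : Pres // Nonempty (P.Pi ≃* G) ∧ P.chi = n},
      ∃ (ψ : P.1.Pi →* G) (V : Matrix (Fin m₀) (Fin x) (ZG G))
      (A : Matrix (Fin P.1.rels ⊕ Fin x) (Fin P.1.gens ⊕ Fin m₀) (ZG G))
      (B : Matrix (Fin P.1.gens ⊕ Fin x) (Fin P.1.gens ⊕ Fin x) (ZG G)),
      Function.Bijective ψ ∧ TrivialInWh A ∧ TrivialInWh B ∧
      fromBlocks (P.1.bd₂ ψ) 0 0 (1 : Matrix (Fin x) (Fin x) (ZG G)) * B =
        A * fromBlocks (1 : Matrix (Fin P.1.gens) (Fin P.1.gens) (ZG G)) 0 0 V ∧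
      B * (fromRows 0 (D1o π) : Matrix (Fin P.1.gens ⊕ Fin x) Unit (ZG G)) =
        fromRows (P.1.bd₁ ψ) 0 ∧
      LinearMap.range V.vecMulLinear = LinearMap.ker (Dlin π) := by
    rintro ⟨P, ⟨ψ⟩, hP⟩
    have hm : P.rels + x = P.gens + m₀ := by
      have : (P.rels : ℤ) + x = P.gens + m₀ := by
        rw [hm₀, ← hP, Pres.chi]; ring
      exact_mod_cast this
    obtain ⟨V, A, B, h1, h2, h3, h4, h5⟩ := reduce P ψ.toMonoidHom ψ.bijective hπ hm hN
    exact ⟨ψ.toMonoidHom, V, A, B, ψ.bijective, h1, h2, h3, h4, range_vecMulLinear h5⟩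
  choose ψ V A B hψ hA hB h1 h2 hV using hred
  refine ⟨k, fun P => c₀ ⟨(V P).vecMulLinear, hV P⟩, fun P Q hPQ => ?_⟩
  obtain ⟨Φ, hΦ, hcl⟩ := hc₀ _ _ hPQ.symm
  obtain ⟨M, rfl⟩ := Pool.Wh.exists_vmE Φ
  rw [← Pool.Wh.clM_eq] at hcl
  obtain ⟨p, hp⟩ := Pool.Agent.SH.elem_of_clM_eq_one M hcl
  have hM : TrivialInWh M.val := triv_unblock (triv_of_mem (El_of_elemG hp))
  have hVV : V P = M.val * V Q := by
    refine Matrix.ext fun i j => ?_
    have h3 := congrFun (LinearMap.congr_fun hΦ (Pi.single i 1)) j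
    simp only [LinearMap.comp_apply, LinearEquiv.coe_coe, Pool.Wh.vmE_apply,
      Matrix.vecMulLinear_apply, Matrix.single_one_vecMul] at h3
    exact h3
  exact simpleEquiv_of_reduced (ψ P) (hψ P) (ψ Q) (hψ Q) (hA P) (hB P) (hA Q) (hB Q) (h1 P) (h1 Q)
    (h2 P) (h2 Q) hM hVV

end Pool.SH
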