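import Pool.Agent.Lib_helper59.SH.Cone
import Pool.Agent.Lib_helper64.SH.Hermite

/-!
# Reduction of the chain complex of a presentation to a complex with fixed 1-chains
-/

set_option autoImplicit false

namespace Pool.SH

open Matrix

section

variable {H : Type} [Group H]

lemma El_of_elemG {ι : Type} [Fintype ι] [DecidableEq ι] {E : (Matrix ι ι (ZG H))ˣ}
    (hE : E ∈ Pool.Agent.SH.ElemG ι (ZG H)) : E.val ∈ El H ι := by
  induction hE using Subgroup.closure_induction with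
  | mem x hx =>
    obtain ⟨i, j, h, c, rfl⟩ := hx
    exact el_mem h c
  | one => exact one_mem _
  | mul x y _ _ hx hy => exact mul_mem hx hy
  | inv x _ hx =>
    obtain ⟨B, hB, h1, -⟩ := El_inv hx
    have : (x⁻¹).val = B := by
      rw [← Matrix.one_mul B, ← x.inv_mul, Matrix.mul_assoc, h1, Matrix.mul_one]
    rw [this]
    exact hB

/-- exactness of the cellular chain complex of the universal cover at `C₁` -/
lemma exact_C1 (P : Pres) (ψ : P.Pi →* H) (hψ : Function.Bijective ψ) {k : Type}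
    (V : Matrix k (Fin P.gens) (ZG H)) (hV : V * P.bd₁ ψ = 0) :
    ∃ U : Matrix k (Fin P.rels) (ZG H), V = U * P.bd₂ ψ := by
  have hθ : Function.Surjective (ψ.comp P.proj) := by
    rw [MonoidHom.coe_comp]
    exact hψ.2.comp P.proj_surjective
  have hrow : ∀ i, ∃ u : Fin P.rels → ZG H, V i = ∑ s, u s • fx (ψ.comp P.proj) (P.rel s) := by
    intro i
    obtain ⟨n, hn1, hn2⟩ := exists_word_of_cycle hθ (V i) (by
      have := congrFun (congrFun hV i) ()
      rw [Matrix.mul_apply] at this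
      exact this)
    have hn3 : P.proj n = 1 := by
      apply hψ.1
      rw [map_one]
      exact hn1
    have hn4 : n ∈ P.bdry.range := by
      rw [← P.ker_proj]
      exact hn3
    obtain ⟨c, rfl⟩ := hn4
    exact ⟨_, hn2.symm.trans (P.fx_bdry ψ c)⟩
  choose u hu using hrow
  refine ⟨Matrix.of u, ?_⟩
  refine Matrix.ext fun i y => ?_
  rw [Matrix.mul_apply, hu i]
  simp only [Finset.sum_apply, Pi.smul_apply, smul_eq_mul, P.bd₂_apply, Matrix.of_apply]

/-- the fixed boundary map `C₁ → C₀` -/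
noncomputable def D1o {x : ℕ} (π : Fin x → H) : Matrix (Fin x) Unit (ZG H) :=
  Matrix.of fun i _ => ofG (π i) - 1

lemma exists_Y (P : Pres) (ψ : P.Pi →* H) {x : ℕ} {π : Fin x → H} (hπ : Function.Surjective π) :
    ∃ Y : Matrix (Fin P.gens) (Fin x) (ZG H), P.bd₁ ψ = Y * D1o π := by
  refine ⟨Matrix.of fun y i => if i = Function.surjInv hπ (ψ (PresentedGroup.of y)) then 1 else 0,
    ?_⟩
  refine Matrix.ext fun y u => ?_
  rw [Matrix.mul_apply, Finset.sum_eq_single (Function.surjInv hπ (ψ (PresentedGroup.of y)))]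
  · simp [Pres.bd₁, D1o, Function.surjInv_eq hπ]
  · intro b _ hb
    simp [hb]
  · simp

lemma exists_X (P : Pres) (ψ : P.Pi →* H) (hψ : Function.Surjective ψ) {x : ℕ} (π : Fin x → H) :
    ∃ X : Matrix (Fin x) (Fin P.gens) (ZG H), D1o π = X * P.bd₁ ψ := by
  have hθ : Function.Surjective (ψ.comp P.proj) := by
    rw [MonoidHom.coe_comp]
    exact hψ.comp P.proj_surjective
  choose w hw using fun i => hθ (π i)
  refine ⟨Matrix.of fun i => fx (ψ.comp P.proj) (w i), ?_⟩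
  refine Matrix.ext fun i u => ?_
  rw [Matrix.mul_apply]
  have := sum_fx (ψ.comp P.proj) (w i)
  rw [hw] at this
  exact this.symm

/-- **Reduction** of the chain complex of a presentation. -/
theorem reduce [Finite H] (P : Pres) (ψ : P.Pi →* H) (hψ : Function.Bijective ψ) {x : ℕ}
    {π : Fin x → H} (hπ : Function.Surjective π) {m₀ : ℕ} (hm : P.rels + x = P.gens + m₀)
    (hcard : Nat.card H ≤ m₀) :
    ∃ (V : Matrix (Fin m₀) (Fin x) (ZG H))
      (A : Matrix (Fin P.rels ⊕ Fin x) (Fin P.gens ⊕ Fin m₀) (ZG H))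
      (B : Matrix (Fin P.gens ⊕ Fin x) (Fin P.gens ⊕ Fin x) (ZG H)),
      TrivialInWh A ∧ TrivialInWh B ∧
      fromBlocks (P.bd₂ ψ) 0 0 (1 : Matrix (Fin x) (Fin x) (ZG H)) * B =
        A * fromBlocks (1 : Matrix (Fin P.gens) (Fin P.gens) (ZG H)) 0 0 V ∧
      B * (fromRows 0 (D1o π) : Matrix (Fin P.gens ⊕ Fin x) Unit (ZG H)) =
        fromRows (P.bd₁ ψ) 0 ∧
      ∀ v : Matrix Unit (Fin x) (ZG H), v * D1o π = 0 ↔ ∃ u : Matrix Unit (Fin m₀) (ZG H),
        v = u * V := by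
  obtain ⟨Y, hY⟩ := exists_Y P ψ hπ
  obtain ⟨X, hX⟩ := exists_X P ψ hψ.2 π
  let g := Fin P.gens
  let m := Fin P.rels
  let D1 : Matrix g Unit (ZG H) := P.bd₁ ψ
  let D2 : Matrix m g (ZG H) := P.bd₂ ψ
  let D : Matrix (m ⊕ Fin x) (g ⊕ Fin x) (ZG H) := fromBlocks D2 0 0 1
  let B : Matrix (g ⊕ Fin x) (g ⊕ Fin x) (ZG H) := fromBlocks 1 0 (-X) 1 * fromBlocks 1 Y 0 1
  let B' : Matrix (g ⊕ Fin x) (g ⊕ Fin x) (ZG H) := fromBlocks 1 (-Y) 0 1 * fromBlocks 1 0 X 1
  have hB : TrivialInWh B := triv_of_mem (mul_mem (El_lower _) (El_upper _))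
  have hBB' : B * B' = 1 := by
    have e1 : (fromBlocks 1 Y 0 1 : Matrix (g ⊕ Fin x) (g ⊕ Fin x) (ZG H)) *
        fromBlocks 1 (-Y) 0 1 = 1 := by
      rw [fromBlocks_multiply, ← fromBlocks_one]; simp
    have e2 : (fromBlocks 1 0 (-X) 1 : Matrix (g ⊕ Fin x) (g ⊕ Fin x) (ZG H)) *
        fromBlocks 1 0 X 1 = 1 := by
      rw [fromBlocks_multiply, ← fromBlocks_one]; simp
    calc B * B' = fromBlocks 1 0 (-X) 1 * (fromBlocks 1 Y 0 1 * fromBlocks 1 (-Y) 0 1) *
          fromBlocks 1 0 X 1 := by simp only [B, B', Matrix.mul_assoc]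
      _ = 1 := by rw [e1, Matrix.mul_one, e2]
  have hB'B : B' * B = 1 := by
    have e1 : (fromBlocks 1 (-Y) 0 1 : Matrix (g ⊕ Fin x) (g ⊕ Fin x) (ZG H)) *
        fromBlocks 1 Y 0 1 = 1 := by
      rw [fromBlocks_multiply, ← fromBlocks_one]; simp
    have e2 : (fromBlocks 1 0 X 1 : Matrix (g ⊕ Fin x) (g ⊕ Fin x) (ZG H)) *
        fromBlocks 1 0 (-X) 1 = 1 := by
      rw [fromBlocks_multiply, ← fromBlocks_one]; simp
    calc B' * B = fromBlocks 1 (-Y) 0 1 * (fromBlocks 1 0 X 1 * fromBlocks 1 0 (-X) 1) *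
          fromBlocks 1 Y 0 1 := by simp only [B, B', Matrix.mul_assoc]
      _ = 1 := by rw [e2, Matrix.mul_one, e1]
  -- B (0; D1o) = (D1; 0)
  let C0 : Matrix (g ⊕ Fin x) Unit (ZG H) := fromRows 0 (D1o π)
  let C1 : Matrix (g ⊕ Fin x) Unit (ZG H) := fromRows D1 0
  have hC : B * C0 = C1 := by
    have e1 : (fromBlocks 1 Y 0 1 : Matrix (g ⊕ Fin x) (g ⊕ Fin x) (ZG H)) * C0 =
        fromRows D1 (D1o π) := by
      simp only [C0, fromBlocks_mul_fromRows, Matrix.mul_zero, Matrix.one_mul, zero_add, D1, hY]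
    simp only [B]
    rw [Matrix.mul_assoc, e1, fromBlocks_mul_fromRows]
    simp only [C1, Matrix.one_mul, Matrix.zero_mul, add_zero, Matrix.neg_mul, D1]
    rw [← hX]
    simp
  have hC' : C0 = B' * C1 := by rw [← hC, ← Matrix.mul_assoc, hB'B, Matrix.one_mul]
  have hDC : D * C1 = 0 := by
    simp only [D, C1, fromBlocks_mul_fromRows, D1, D2, P.bd₂_mul_bd₁]
    simp
  -- exactness
  have hexact : ∀ (k : Type) (W : Matrix k (g ⊕ Fin x) (ZG H)), W * C0 = 0 →
      ∃ Z : Matrix k (m ⊕ Fin x) (ZG H), W = Z * (D * B) := by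
    intro k W hW
    rw [hC', ← Matrix.mul_assoc] at hW
    have e0 : W * B' = fromCols (W * B').toCols₁ (W * B').toCols₂ := (fromCols_toCols _).symm
    rw [e0, fromCols_mul_fromRows] at hW
    obtain ⟨U, hU⟩ := exact_C1 P ψ hψ (W * B').toCols₁ (by simpa using hW)
    refine ⟨fromCols U (W * B').toCols₂, ?_⟩
    rw [← Matrix.mul_assoc]
    have e1 : fromCols U (W * B').toCols₂ * D = W * B' := by
      conv_rhs => rw [e0, hU]
      simp only [D, fromCols_mul_fromBlocks]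
      simp [D2]
    rw [e1, Matrix.mul_assoc, hB'B, Matrix.mul_one]
  -- the left inverse
  obtain ⟨W₀, hW₀⟩ := hexact g (fromCols 1 0) (by simp [C0, fromCols_mul_fromRows])
  -- reindexing the rows
  obtain ⟨ε⟩ : Nonempty ((g ⊕ Fin m₀) ≃ (m ⊕ Fin x)) := by
    refine ⟨Fintype.equivOfCardEq ?_⟩
    simp [g, m, hm]
  let N : Matrix (g ⊕ Fin m₀) (g ⊕ Fin x) (ZG H) := (D * B).submatrix ε id
  let U : Matrix (g ⊕ Fin m₀) g (ZG H) := N.toCols₁
  let V' : Matrix (g ⊕ Fin m₀) (Fin x) (ZG H) := N.toCols₂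
  have hN : N = fromCols U V' := (fromCols_toCols _).symm
  let W₁ : Matrix g (g ⊕ Fin m₀) (ZG H) := W₀.submatrix id ε
  have hW₁ : W₁ * N = fromCols 1 0 := by
    rw [hW₀]
    exact (Matrix.submatrix_mul W₀ (D * B) id ε id ε.bijective).symm
  have hW₁' : W₁ * U = 1 ∧ W₁ * V' = 0 := by
    rw [hN, mul_fromCols] at hW₁
    exact fromCols_inj hW₁
  have hfin : Module.finrank ℤ (ZG H) ≤ Fintype.card (Fin m₀) := by
    rw [Fintype.card_fin]
    have : Module.finrank ℤ (ZG H) = Nat.card H := by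
      have := Fintype.ofFinite H
      rw [(MonoidAlgebra.coeffLinearEquiv (M := H) (S := ℤ) ℤ).finrank_eq,
        Module.finrank_finsupp_self, Nat.card_eq_fintype_card]
    omega
  have : Module.Finite ℤ (ZG H) :=
    Module.Finite.equiv (MonoidAlgebra.coeffLinearEquiv (M := H) (S := ℤ) ℤ).symm
  obtain ⟨E, hE, hEU⟩ := Pool.Agent.SH.exists_elem_mul_eq_fromRows hfin U W₁ hW₁'.1
  have hE' := El_of_elemG hE
  let V₁ : Matrix g (Fin x) (ZG H) := (E.val * V').toRows₁
  let V : Matrix (Fin m₀) (Fin x) (ZG H) := (E.val * V').toRows₂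
  have hV : E.val * V' = fromRows V₁ V := (fromRows_toRows _).symm
  let W₂ : Matrix g g (ZG H) := (W₁ * (E⁻¹).val).toCols₁
  let W₃ : Matrix g (Fin m₀) (ZG H) := (W₁ * (E⁻¹).val).toCols₂
  have hW : W₁ * (E⁻¹).val = fromCols W₂ W₃ := (fromCols_toCols _).symm
  have h1 : W₂ = 1 := by
    have : (W₁ * (E⁻¹).val) * (E.val * U) = 1 := by
      rw [Matrix.mul_assoc, ← Matrix.mul_assoc _ E.val, E.inv_mul, Matrix.one_mul, hW₁'.1]
    rw [hW, hEU, fromCols_mul_fromRows] at this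
    simpa using this
  have h2 : V₁ + W₃ * V = 0 := by
    have : (W₁ * (E⁻¹).val) * (E.val * V') = 0 := by
      rw [Matrix.mul_assoc, ← Matrix.mul_assoc _ E.val, E.inv_mul, Matrix.one_mul, hW₁'.2]
    rw [hW, hV, fromCols_mul_fromRows, h1, Matrix.one_mul] at this
    exact this
  let L : Matrix (g ⊕ Fin m₀) (g ⊕ Fin m₀) (ZG H) := fromBlocks 1 W₃ 0 1 * E.val
  have hL : L ∈ El H (g ⊕ Fin m₀) := mul_mem (El_upper _) hE'
  have hLN : L * N = fromBlocks 1 0 0 V := by
    simp only [L]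
    rw [Matrix.mul_assoc, hN, mul_fromCols, hEU, hV, fromCols_fromRows_eq_fromBlocks,
      fromBlocks_multiply]
    simp [h2]
  obtain ⟨L', hL', h3, h4⟩ := El_inv hL
  let A : Matrix (m ⊕ Fin x) (g ⊕ Fin m₀) (ZG H) := L'.submatrix ε.symm id
  let A' : Matrix (g ⊕ Fin m₀) (m ⊕ Fin x) (ZG H) := L.submatrix id ε.symm
  have hA'A : A' * A = 1 := by
    rw [← h3]
    exact (Matrix.submatrix_mul L L' id ε.symm id ε.symm.bijective).symm
  have hA : D * B = A * fromBlocks (1 : Matrix g g (ZG H)) 0 0 V := by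
    have e1 : D * B = N.submatrix ε.symm id := by
      simp [N, submatrix_submatrix]
    rw [e1, ← hLN]
    have e2 : A * (L * N) = (L' * (L * N)).submatrix ε.symm id := by
      refine Matrix.ext fun i j => ?_
      simp [Matrix.mul_apply, A]
    rw [e2, ← Matrix.mul_assoc, h4, Matrix.one_mul]
  refine ⟨V, A, B, triv_submatrix (triv_of_mem hL') ε.symm (Equiv.refl _),
    hB, hA, hC, fun v => ⟨fun hv => ?_, ?_⟩⟩
  · obtain ⟨Z, hZ⟩ := hexact Unit (fromCols 0 v) (by simp [C0, fromCols_mul_fromRows, hv])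
    rw [hA, ← Matrix.mul_assoc] at hZ
    have e0 : Z * A = fromCols (Z * A).toCols₁ (Z * A).toCols₂ := (fromCols_toCols _).symm
    rw [e0, fromCols_mul_fromBlocks] at hZ
    have := (fromCols_inj hZ).2
    refine ⟨(Z * A).toCols₂, ?_⟩
    simpa using this
  · rintro ⟨u, rfl⟩
    have e1 : fromCols (0 : Matrix Unit g (ZG H)) (u * V) =
        fromCols (0 : Matrix Unit g (ZG H)) u * A' * (D * B) := by
      rw [hA, Matrix.mul_assoc, ← Matrix.mul_assoc A', hA'A, Matrix.one_mul,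
        fromCols_mul_fromBlocks]
      simp
    have e2 : fromCols (0 : Matrix Unit g (ZG H)) (u * V) * C0 = 0 := by
      rw [e1, Matrix.mul_assoc, Matrix.mul_assoc D, hC, hDC, Matrix.mul_zero]
    simpa [C0, fromCols_mul_fromRows] using e2

end

end Pool.SH
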