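import Pool.Agent.Lib_helper59.SH.CxLemmas

/-!
# The chain complex of a presentation, the chain map of a cellular map, `SimpleEquiv`
-/

set_option autoImplicit false

namespace Pool.SH

/-- `∂∂ = 0` -/
theorem Pres.complex_sq (P : Pres) {H : Type} [Group H] (ψ : P.Pi →* H) :
    blk (P.bd₁ ψ) (P.bd₂ ψ) * blk (P.bd₁ ψ) (P.bd₂ ψ) = 0 :=
  blk_mul_blk _ _ (P.bd₂_mul_bd₁ ψ)

/-- The cellular chain complex of the universal cover of the presentation complex `K_P`, with
coefficients extended along `ψ : π₁(K_P) → H`: one 0-cell, the edges, the faces. -/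
noncomputable def Pres.complex (P : Pres) {H : Type} [Group H] (ψ : P.Pi →* H) :
    BasedComplex (ZG H) where
  cell := Unit ⊕ (Fin P.gens ⊕ Fin P.rels)
  deg := Sum.elim (fun _ => 0) (Sum.elim (fun _ => 1) (fun _ => 2))
  bd := blk (P.bd₁ ψ) (P.bd₂ ψ)
  bd_deg := by
    rintro (i | i | i) (j | j | j) h <;> simp_all [blk]
  bd_bd := P.complex_sq ψ

/-- the induced map commutes with the boundary maps -/
theorem CellMap.chain_comm {P Q : Pres} (f : CellMap P Q) :
    blk (P.bd₁ f.onPi) (P.bd₂ f.onPi) * dblk (1 : Matrix Unit Unit (ZG Q.Pi)) f.mat₁ f.mat₂ =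
      dblk (1 : Matrix Unit Unit (ZG Q.Pi)) f.mat₁ f.mat₂ *
        blk (Q.bd₁ (MonoidHom.id Q.Pi)) (Q.bd₂ (MonoidHom.id Q.Pi)) :=
  blk_mul_dblk (by rw [Matrix.mul_one]; exact f.bd₁_comm) f.bd₂_comm

/-- The chain map `ℤ[π₁ Q] ⊗ C(K̃_P) → C(K̃_Q)` induced by a cellular map. -/
noncomputable def CellMap.chainMap {P Q : Pres} (f : CellMap P Q) :
    ChainMap (P.complex f.onPi) (Q.complex (MonoidHom.id Q.Pi)) where
  mat := dblk 1 f.mat₁ f.mat₂
  mat_deg := by
    rintro (i | i | i) (j | j | j) h <;> simp_all [Pres.complex, dblk]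
  comm := f.chain_comm

/-- `K_P` and `K_Q` are simple-homotopy equivalent: there is a cellular map `f : K_P → K_Q` which
is an isomorphism on fundamental groups and for which the mapping cone of the induced chain map
of universal covers is contractible with vanishing Whitehead torsion. -/
def SimpleEquiv (P Q : Pres) : Prop :=
  ∃ f : CellMap P Q, Function.Bijective f.onPi ∧
    ∃ S, IsContraction (cone f.chainMap) S ∧ TrivialInWh (torsionMatrix (cone f.chainMap) S)

end Pool.SH
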