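import Pool.Agent.Lib_helper59.SH.Defs

/-!
# Calculus of matrices which are trivial in the Whitehead group
-/

set_option autoImplicit false

namespace Pool.SH

open Matrix

variable {H : Type} [Group H]

/-- products of elementary matrices and `diag (1, …, ± h, …, 1)` -/
noncomputable abbrev El (H : Type) [Group H] (κ : Type) [Fintype κ] [DecidableEq κ] :
    Submonoid (Matrix κ κ (ZG H)) := Submonoid.closure (whGens H κ)

section El

variable {κ κ' : Type} [Fintype κ] [DecidableEq κ] [Fintype κ'] [DecidableEq κ']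

lemma el_mem {i j : κ} (h : i ≠ j) (a : ZG H) : 1 + single i j a ∈ El H κ :=
  Submonoid.subset_closure (Or.inl ⟨i, j, h, a, rfl⟩)

lemma dg_mem (i : κ) (h : H) : diagonal (Function.update 1 i (ofG h)) ∈ El H κ :=
  Submonoid.subset_closure (Or.inr ⟨i, h, Or.inl rfl⟩)

lemma dgn_mem (i : κ) (h : H) : diagonal (Function.update 1 i (-ofG h)) ∈ El H κ :=
  Submonoid.subset_closure (Or.inr ⟨i, h, Or.inr rfl⟩)

lemma El_induct {p : ∀ A : Matrix κ κ (ZG H), A ∈ El H κ → Prop} (h1 : p 1 (one_mem _))
    (hmul : ∀ A B hA hB, p A hA → p B hB → p (A * B) (mul_mem hA hB))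
    (hel : ∀ i j (hij : i ≠ j) a, p (1 + single i j a) (el_mem hij a))
    (hd : ∀ i h, p (diagonal (Function.update 1 i (ofG h))) (dg_mem i h))
    (hdn : ∀ i h, p (diagonal (Function.update 1 i (-ofG h))) (dgn_mem i h))
    {A : Matrix κ κ (ZG H)} (hA : A ∈ El H κ) : p A hA := by
  induction hA using Submonoid.closure_induction with
  | mem x hx =>
    rcases hx with ⟨i, j, hij, a, rfl⟩ | ⟨i, h, rfl | rfl⟩
    · exact hel i j hij a
    · exact hd i h
    · exact hdn i h
  | one => exact h1
  | mul x y hx hy hx' hy' => exact hmul x y hx hy hx' hy'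

lemma El_inv {A : Matrix κ κ (ZG H)} (hA : A ∈ El H κ) :
    ∃ B ∈ El H κ, A * B = 1 ∧ B * A = 1 := by
  induction hA using El_induct with
  | h1 => exact ⟨1, one_mem _, by simp, by simp⟩
  | hmul A B _ _ hA hB =>
    obtain ⟨A', hA', h1, h2⟩ := hA
    obtain ⟨B', hB', h3, h4⟩ := hB
    refine ⟨B' * A', mul_mem hB' hA', ?_, ?_⟩
    · rw [Matrix.mul_assoc, ← Matrix.mul_assoc B, h3, Matrix.one_mul, h1]
    · rw [Matrix.mul_assoc, ← Matrix.mul_assoc A', h2, Matrix.one_mul, h4]
  | hel i j hij a =>
    refine ⟨1 + single i j (-a), el_mem hij _, ?_, ?_⟩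
    · rw [mul_add, add_mul, add_mul]
      simp [single_mul_single_of_ne, hij.symm, add_assoc, ← single_add]
    · rw [mul_add, add_mul, add_mul]
      simp [single_mul_single_of_ne, hij.symm, add_assoc, ← single_add]
  | hd i h =>
    refine ⟨diagonal (Function.update 1 i (ofG h⁻¹)), dg_mem _ _, ?_, ?_⟩
    · rw [diagonal_mul_diagonal, ← diagonal_one]
      congr 1
      funext k
      by_cases hk : k = i
      · subst hk; simp [← map_mul]
      · simp [Function.update_of_ne hk]
    · rw [diagonal_mul_diagonal, ← diagonal_one]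
      congr 1
      funext k
      by_cases hk : k = i
      · subst hk; simp [← map_mul]
      · simp [Function.update_of_ne hk]
  | hdn i h =>
    refine ⟨diagonal (Function.update 1 i (-ofG h⁻¹)), dgn_mem _ _, ?_, ?_⟩
    · rw [diagonal_mul_diagonal, ← diagonal_one]
      congr 1
      funext k
      by_cases hk : k = i
      · subst hk; simp [← map_mul]
      · simp [Function.update_of_ne hk]
    · rw [diagonal_mul_diagonal, ← diagonal_one]
      congr 1
      funext k
      by_cases hk : k = i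
      · subst hk; simp [← map_mul]
      · simp [Function.update_of_ne hk]

lemma El_reindex (e : κ ≃ κ') {A : Matrix κ κ (ZG H)} (hA : A ∈ El H κ) :
    A.submatrix e.symm e.symm ∈ El H κ' := by
  induction hA using El_induct with
  | h1 => simp
  | hmul A B _ _ hA hB =>
    rw [← Matrix.submatrix_mul_equiv A B e.symm e.symm e.symm]
    exact mul_mem hA hB
  | hel i j hij a =>
    have : (1 + single i j a).submatrix e.symm e.symm = 1 + single (e i) (e j) a := by
      refine Matrix.ext fun k l => ?_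
      simp only [submatrix_apply, Matrix.add_apply, Matrix.one_apply, single_apply,
        Equiv.eq_symm_apply, Equiv.apply_symm_apply]
    rw [this]
    exact el_mem (by simpa using hij) a
  | hd i h =>
    have : (diagonal (Function.update 1 i (ofG h))).submatrix e.symm e.symm =
        diagonal (Function.update 1 (e i) (ofG h)) := by
      rw [submatrix_diagonal_equiv]
      congr 1
      funext k
      simp [Function.update_apply, Equiv.symm_apply_eq]
    rw [this]
    exact dg_mem _ _
  | hdn i h =>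
    have : (diagonal (Function.update 1 i (-ofG h))).submatrix e.symm e.symm =
        diagonal (Function.update 1 (e i) (-ofG h)) := by
      rw [submatrix_diagonal_equiv]
      congr 1
      funext k
      simp [Function.update_apply, Equiv.symm_apply_eq]
    rw [this]
    exact dgn_mem _ _

lemma El_block {A : Matrix κ κ (ZG H)} (hA : A ∈ El H κ) :
    fromBlocks A 0 0 (1 : Matrix κ' κ' (ZG H)) ∈ El H (κ ⊕ κ') := by
  induction hA using El_induct with
  | h1 => rw [fromBlocks_one]; exact one_mem _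
  | hmul A B _ _ hA hB =>
    have := mul_mem hA hB
    rw [fromBlocks_multiply] at this
    simpa using this
  | hel i j hij a =>
    have : fromBlocks (1 + single i j a) 0 0 (1 : Matrix κ' κ' (ZG H)) =
        1 + single (Sum.inl i) (Sum.inl j) a := by
      refine Matrix.ext fun k l => ?_
      rcases k with k | k <;> rcases l with l | l <;>
        simp [Matrix.one_apply, single_apply]
    rw [this]
    exact el_mem (by simpa using hij) a
  | hd i h =>
    have : fromBlocks (diagonal (Function.update 1 i (ofG h))) 0 0 (1 : Matrix κ' κ' (ZG H)) =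
        diagonal (Function.update 1 (Sum.inl i) (ofG h)) := by
      rw [← diagonal_one, fromBlocks_diagonal]
      congr 1
      funext k
      rcases k with k | k <;> simp [Function.update_apply]
    rw [this]
    exact dg_mem _ _
  | hdn i h =>
    have : fromBlocks (diagonal (Function.update 1 i (-ofG h))) 0 0 (1 : Matrix κ' κ' (ZG H)) =
        diagonal (Function.update 1 (Sum.inl i) (-ofG h)) := by
      rw [← diagonal_one, fromBlocks_diagonal]
      congr 1
      funext k
      rcases k with k | k <;> simp [Function.update_apply]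
    rw [this]
    exact dgn_mem _ _

lemma El_upper (X : Matrix κ κ' (ZG H)) :
    fromBlocks 1 X 0 1 ∈ El H (κ ⊕ κ') := by
  have key : ∀ s : Finset (κ × κ'), fromBlocks (1 : Matrix κ κ (ZG H))
      (∑ p ∈ s, single p.1 p.2 (X p.1 p.2)) 0 (1 : Matrix κ' κ' (ZG H)) ∈
      El H (κ ⊕ κ') := by
    classical
    intro s
    induction s using Finset.induction_on with
    | empty => rw [Finset.sum_empty, fromBlocks_one]; exact one_mem _
    | insert p s hp ih =>
      rw [Finset.sum_insert hp]
      have e : fromBlocks (1 : Matrix κ κ (ZG H))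
          (single p.1 p.2 (X p.1 p.2) + ∑ p ∈ s, single p.1 p.2 (X p.1 p.2)) 0
          (1 : Matrix κ' κ' (ZG H)) =
          (1 + single (Sum.inl p.1) (Sum.inr p.2) (X p.1 p.2)) *
            fromBlocks 1 (∑ p ∈ s, single p.1 p.2 (X p.1 p.2)) 0 1 := by
        have e2 : (1 + single (Sum.inl p.1) (Sum.inr p.2) (X p.1 p.2) :
            Matrix (κ ⊕ κ') (κ ⊕ κ') (ZG H)) = fromBlocks 1 (single p.1 p.2 (X p.1 p.2)) 0 1 := by
          refine Matrix.ext fun k l => ?_
          rcases k with k | k <;> rcases l with l | l <;>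
            simp [Matrix.one_apply, single_apply]
        rw [e2, fromBlocks_multiply]
        simp [add_comm]
      rw [e]
      exact mul_mem (el_mem (by simp) _) ih
  have h := key Finset.univ
  have e : ∑ p : κ × κ', single p.1 p.2 (X p.1 p.2) = X := by
    rw [Fintype.sum_prod_type]
    exact (matrix_eq_sum_single X).symm
  rwa [e] at h

lemma El_lower (X : Matrix κ' κ (ZG H)) :
    fromBlocks 1 0 X 1 ∈ El H (κ ⊕ κ') := by
  have h := El_reindex (Equiv.sumComm κ' κ) (El_upper (H := H) X)
  have e : (fromBlocks (1 : Matrix κ' κ' (ZG H)) X 0 (1 : Matrix κ κ (ZG H))).submatrix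
      (Equiv.sumComm κ' κ).symm (Equiv.sumComm κ' κ).symm =
      fromBlocks 1 0 X (1 : Matrix κ' κ' (ZG H)) := by
    refine Matrix.ext fun k l => ?_
    rcases k with k | k <;> rcases l with l | l <;> simp
  rwa [e] at h

lemma swap_mem (i j : κ) (hij : i ≠ j) :
    (1 : Matrix κ κ (ZG H)).submatrix (Equiv.swap i j) id ∈ El H κ := by
  have e : (1 : Matrix κ κ (ZG H)).submatrix (Equiv.swap i j) id =
      (1 + single i j 1) * (1 + single j i (-1)) * (1 + single i j 1) *
        diagonal (Function.update 1 i (-ofG 1)) := by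
    have e1 : (1 + single i j 1) * (1 + single j i (-1)) * (1 + single i j 1) =
        (1 + single i j 1 - single j i 1 - single i i 1 - single j j 1 :
          Matrix κ κ (ZG H)) := by
      have h1 : (1 + single i j 1 : Matrix κ κ (ZG H)) * (1 + single j i (-1)) =
          1 + single i j 1 - single j i 1 - single i i 1 := by
        rw [mul_add, add_mul, add_mul]
        simp [single_mul_single_same, sub_eq_add_neg, single_neg]
        abel
      rw [h1]
      simp only [mul_add, mul_one, add_mul, sub_mul, one_mul, single_mul_single_same,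
        single_mul_single_of_ne _ _ _ _ hij.symm]
      abel
    rw [e1]
    have e2 : (diagonal (Function.update 1 i (-ofG 1)) : Matrix κ κ (ZG H)) =
        1 - single i i 1 - single i i 1 := by
      refine Matrix.ext fun k l => ?_
      by_cases hkl : k = l
      · subst hkl
        by_cases hk : k = i
        · subst hk; simp
        · simp [Function.update_of_ne hk, Ne.symm hk]
      · have h1 : ¬ (i = k ∧ i = l) := fun h => hkl (h.1.symm.trans h.2)
        simp [hkl, h1]
    rw [e2]
    simp only [mul_sub, mul_one, add_mul, sub_mul, one_mul, single_mul_single_same,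
      single_mul_single_of_ne _ _ _ _ hij.symm]
    refine Matrix.ext fun k l => ?_
    simp only [submatrix_apply, id_eq, Matrix.sub_apply, Matrix.add_apply, Matrix.one_apply,
      single_apply, Matrix.zero_apply, Equiv.swap_apply_def]
    by_cases hki : k = i
    · subst hki
      by_cases hkj : k = j
      · exact absurd hkj hij
      · by_cases hli : k = l
        · subst hli; simp [hij.symm]
        · by_cases hlj : j = l
          · subst hlj; simp [hij, hij.symm]
          · simp [hli, hlj, hij.symm]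
    · by_cases hkj : k = j
      · subst hkj
        by_cases hli : i = l
        · subst hli; simp [hij, hij.symm]
        · by_cases hlj : k = l
          · subst hlj; simp [hij, hij.symm]
          · simp [hli, hlj, hij, hij.symm]
      · simp [hki, hkj, Ne.symm hki, Ne.symm hkj]
  rw [e]
  exact mul_mem (mul_mem (mul_mem (el_mem hij _) (el_mem hij.symm _)) (el_mem hij _)) (dgn_mem _ _)

lemma perm_mem (σ : Equiv.Perm κ) : (1 : Matrix κ κ (ZG H)).submatrix σ id ∈ El H κ := by
  induction σ using Equiv.Perm.swap_induction_on with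
  | one => simp
  | swap_mul f x y hxy hf =>
    have : (1 : Matrix κ κ (ZG H)).submatrix (Equiv.swap x y * f) id =
        (1 : Matrix κ κ (ZG H)).submatrix f id *
          (1 : Matrix κ κ (ZG H)).submatrix (Equiv.swap x y) id := by
      refine Matrix.ext fun k l => ?_
      rw [Matrix.mul_apply, Finset.sum_eq_single (f k)]
      · simp [Matrix.one_apply]
      · intro m _ hm
        rw [submatrix_apply, Matrix.one_apply, if_neg (by simpa using hm.symm), zero_mul]
      · simp
    rw [this]
    exact mul_mem hf (swap_mem x y hxy)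

lemma El_reindex₂ (e f : κ ≃ κ') {A : Matrix κ κ (ZG H)} (hA : A ∈ El H κ) :
    A.submatrix e.symm f.symm ∈ El H κ' := by
  have h := mul_mem (El_reindex e hA) (perm_mem (H := H) (e.symm.trans f))
  have e1 : A.submatrix e.symm e.symm * (1 : Matrix κ' κ' (ZG H)).submatrix (e.symm.trans f) id =
      A.submatrix e.symm f.symm := by
    refine Matrix.ext fun k l => ?_
    rw [Matrix.mul_apply, Finset.sum_eq_single (e (f.symm l))]
    · simp [Matrix.one_apply]
    · intro m _ hm
      rw [submatrix_apply, submatrix_apply, Matrix.one_apply, if_neg, mul_zero]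
      intro h
      apply hm
      have h' : f (e.symm m) = l := h
      rw [← h']
      simp
    · simp
  rwa [e1] at h

end El

section Triv

variable {α β γ α' β' : Type}

lemma submatrix_block (M : Matrix α β (ZG H)) {δ δ' : Type} [DecidableEq δ] [DecidableEq δ']
    (e₁ : α' ≃ α) (e₂ : β' ≃ β) (e : δ' ≃ δ) :
    (fromBlocks M 0 0 (1 : Matrix δ δ (ZG H))).submatrix (Equiv.sumCongr e₁ e)
      (Equiv.sumCongr e₂ e) = fromBlocks (M.submatrix e₁ e₂) 0 0 (1 : Matrix δ' δ' (ZG H)) := by
  refine Matrix.ext fun k l => ?_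
  rcases k with k | k <;> rcases l with l | l <;> simp [Matrix.one_apply]

/-- introduction rule -/
lemma triv_intro {κ δ : Type} [Fintype κ] [DecidableEq κ] [Fintype δ] [DecidableEq δ]
    {M : Matrix α β (ZG H)} (e₁ : κ ≃ α ⊕ δ) (e₂ : κ ≃ β ⊕ δ)
    (h : (fromBlocks M 0 0 (1 : Matrix δ δ (ZG H))).submatrix e₁ e₂ ∈ El H κ) :
    TrivialInWh M := by
  let f : Fin (Fintype.card δ) ≃ δ := (Fintype.equivFin δ).symm
  let g : κ ≃ Fin (Fintype.card κ) := Fintype.equivFin κ
  refine ⟨Fintype.card δ, Fintype.card κ,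
    (Equiv.sumCongr (Equiv.refl α) f).trans (e₁.symm.trans g),
    (Equiv.sumCongr (Equiv.refl β) f).trans (e₂.symm.trans g), ?_⟩
  have h1 := El_reindex g h
  have h2 := submatrix_block M (Equiv.refl α) (Equiv.refl β) f
  have h3 : M.submatrix (Equiv.refl α) (Equiv.refl β) = M := rfl
  rw [h3] at h2
  rw [← h2, reindex_apply, submatrix_submatrix]
  rw [submatrix_submatrix] at h1
  convert h1 using 2
  · funext k; simp
  · funext k; simp

/-- elimination rule -/
lemma triv_elim {M : Matrix α β (ZG H)} (hM : TrivialInWh M) :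
    ∃ p₀ : ℕ, ∀ p, p₀ ≤ p → ∀ (κ : Type) [Fintype κ] [DecidableEq κ] (e₁ : κ ≃ α ⊕ Fin p)
      (e₂ : κ ≃ β ⊕ Fin p),
      (fromBlocks M 0 0 (1 : Matrix (Fin p) (Fin p) (ZG H))).submatrix e₁ e₂ ∈ El H κ := by
  obtain ⟨p₀, n, f₁, f₂, h⟩ := hM
  refine ⟨p₀, fun p hp κ _ _ e₁ e₂ => ?_⟩
  obtain ⟨q, rfl⟩ := Nat.exists_eq_add_of_le hp
  have h1 := El_block (κ' := Fin q) h
  let g₁ : α ⊕ Fin (p₀ + q) ≃ Fin n ⊕ Fin q :=
    (Equiv.sumCongr (Equiv.refl α) finSumFinEquiv.symm).trans
      ((Equiv.sumAssoc α (Fin p₀) (Fin q)).symm.trans (Equiv.sumCongr f₁ (Equiv.refl _)))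
  let g₂ : β ⊕ Fin (p₀ + q) ≃ Fin n ⊕ Fin q :=
    (Equiv.sumCongr (Equiv.refl β) finSumFinEquiv.symm).trans
      ((Equiv.sumAssoc β (Fin p₀) (Fin q)).symm.trans (Equiv.sumCongr f₂ (Equiv.refl _)))
  have h2 := El_reindex₂ (e₁.trans g₁).symm (e₂.trans g₂).symm h1
  convert h2 using 1
  refine Matrix.ext fun k l => ?_
  simp only [submatrix_apply, Equiv.symm_symm, Equiv.trans_apply, g₁, g₂]
  rcases e₁ k with k | k <;> rcases e₂ l with l | l
  · simp
  · obtain ⟨l, rfl⟩ := finSumFinEquiv.surjective l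
    rcases l with l | l <;> simp
  · obtain ⟨k, rfl⟩ := finSumFinEquiv.surjective k
    rcases k with k | k <;> simp
  · obtain ⟨l, rfl⟩ := finSumFinEquiv.surjective l
    obtain ⟨k, rfl⟩ := finSumFinEquiv.surjective k
    rcases k with k | k <;> rcases l with l | l
    · simp [Matrix.one_apply]
    · have h3 : ¬ Fin.castAdd q k = Fin.natAdd p₀ l := by
        intro h; have := congrArg Fin.val h; simp at this; omega
      simp [h3]
    · have h3 : ¬ Fin.natAdd p₀ k = Fin.castAdd q l := by
        intro h; have := congrArg Fin.val h; simp at this; omega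
      simp [h3]
    · simp [Matrix.one_apply]

lemma triv_equiv [Finite α] {M : Matrix α β (ZG H)} (hM : TrivialInWh M) : Nonempty (α ≃ β) := by
  obtain ⟨p, n, f₁, f₂, -⟩ := hM
  have := Fintype.ofFinite α
  have hβ : Finite β := by
    have : Finite (β ⊕ Fin p) := Finite.of_equiv _ f₂.symm
    exact Finite.of_injective (Sum.inl : β → β ⊕ Fin p) Sum.inl_injective
  have := Fintype.ofFinite β
  have h1 := Fintype.card_congr (f₁.trans f₂.symm)
  rw [Fintype.card_sum, Fintype.card_sum] at h1
  exact ⟨Fintype.equivOfCardEq (by omega)⟩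

lemma triv_submatrix {M : Matrix α β (ZG H)} (hM : TrivialInWh M) (e₁ : α' ≃ α) (e₂ : β' ≃ β) :
    TrivialInWh (M.submatrix e₁ e₂) := by
  obtain ⟨p, n, f₁, f₂, h⟩ := hM
  refine ⟨p, n, (Equiv.sumCongr e₁ (Equiv.refl _)).trans f₁,
    (Equiv.sumCongr e₂ (Equiv.refl _)).trans f₂, ?_⟩
  rw [← submatrix_block M e₁ e₂ (Equiv.refl (Fin p)), reindex_apply, submatrix_submatrix]
  rw [reindex_apply] at h
  convert h using 2
  · funext k
    simp only [Equiv.symm_trans_apply, Function.comp_apply, Equiv.sumCongr_symm]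
    rcases f₁.symm k with k | k <;> simp
  · funext k
    simp only [Equiv.symm_trans_apply, Function.comp_apply, Equiv.sumCongr_symm]
    rcases f₂.symm k with k | k <;> simp

lemma triv_of_submatrix {M : Matrix α β (ZG H)} (e₁ : α' ≃ α) (e₂ : β' ≃ β)
    (hM : TrivialInWh (M.submatrix e₁ e₂)) : TrivialInWh M := by
  have := triv_submatrix hM e₁.symm e₂.symm
  rwa [submatrix_submatrix, Equiv.self_comp_symm, Equiv.self_comp_symm, submatrix_id_id] at this

lemma triv_mul [Fintype α] [Fintype β] [Fintype γ] {M : Matrix α β (ZG H)}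
    {N : Matrix β γ (ZG H)} (hM : TrivialInWh M) (hN : TrivialInWh N) : TrivialInWh (M * N) := by
  classical
  obtain ⟨e⟩ := triv_equiv hM
  obtain ⟨f⟩ := triv_equiv hN
  obtain ⟨p, hp⟩ := triv_elim hM
  obtain ⟨q, hq⟩ := triv_elim hN
  have h1 := hp (max p q) (le_max_left _ _) (β ⊕ Fin (max p q))
    (Equiv.sumCongr e.symm (Equiv.refl _)) (Equiv.refl _)
  have h2 := hq (max p q) (le_max_right _ _) (β ⊕ Fin (max p q)) (Equiv.refl _)
    (Equiv.sumCongr f (Equiv.refl _))
  have h3 := mul_mem h1 h2
  apply triv_intro (κ := β ⊕ Fin (max p q)) (δ := Fin (max p q))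
    (Equiv.sumCongr e.symm (Equiv.refl _)) (Equiv.sumCongr f (Equiv.refl _))
  have h4 : fromBlocks (M * N) 0 0 (1 : Matrix (Fin (max p q)) (Fin (max p q)) (ZG H)) =
      fromBlocks M 0 0 (1 : Matrix (Fin (max p q)) (Fin (max p q)) (ZG H)) *
        fromBlocks N 0 0 (1 : Matrix (Fin (max p q)) (Fin (max p q)) (ZG H)) := by
    rw [fromBlocks_multiply]; simp
  rw [h4, ← submatrix_mul_equiv _ _ _ (Equiv.refl _)]
  exact h3

lemma triv_of_mem {κ : Type} [Fintype κ] [DecidableEq κ] {A : Matrix κ κ (ZG H)}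
    (hA : A ∈ El H κ) : TrivialInWh A := by
  have h := El_block (κ' := Fin 0) hA
  exact triv_intro (κ := κ ⊕ Fin 0) (δ := Fin 0) (Equiv.refl _) (Equiv.refl _) h

lemma triv_inv [Fintype α] [Fintype β] [DecidableEq α] [DecidableEq β] {M : Matrix α β (ZG H)}
    (hM : TrivialInWh M) :
    ∃ N : Matrix β α (ZG H), TrivialInWh N ∧ M * N = 1 ∧ N * M = 1 := by
  obtain ⟨e⟩ := triv_equiv hM
  obtain ⟨p, hp⟩ := triv_elim hM
  have h1 := hp p le_rfl (β ⊕ Fin p) (Equiv.sumCongr e.symm (Equiv.refl _)) (Equiv.refl _)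
  obtain ⟨B, hB, h2, h3⟩ := El_inv h1
  let B' : Matrix (β ⊕ Fin p) (α ⊕ Fin p) (ZG H) :=
    B.submatrix (Equiv.refl _) (Equiv.sumCongr e (Equiv.refl _))
  have h4 : fromBlocks M 0 0 (1 : Matrix (Fin p) (Fin p) (ZG H)) * B' = 1 := by
    have := congrArg (fun X => X.submatrix (Equiv.sumCongr e (Equiv.refl (Fin p)))
      (Equiv.sumCongr e (Equiv.refl (Fin p)))) h2
    simp only [submatrix_one_equiv] at this
    rw [← submatrix_mul_equiv _ _ _ (Equiv.refl _), submatrix_submatrix] at this
    rw [← this]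
    congr 1
    refine Matrix.ext fun k l => ?_
    rcases k with k | k <;> rcases l with l | l <;> simp
  have h5 : B' * fromBlocks M 0 0 (1 : Matrix (Fin p) (Fin p) (ZG H)) = 1 := by
    rw [← h3]
    have e1 : fromBlocks M 0 0 (1 : Matrix (Fin p) (Fin p) (ZG H)) =
        ((fromBlocks M 0 0 (1 : Matrix (Fin p) (Fin p) (ZG H))).submatrix
          (Equiv.sumCongr e.symm (Equiv.refl (Fin p))) (Equiv.refl _)).submatrix
          (Equiv.sumCongr e (Equiv.refl (Fin p))) (Equiv.refl _) := by
      refine Matrix.ext fun k l => ?_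
      rcases k with k | k <;> rcases l with l | l <;> simp
    conv_lhs => rw [e1]
    rw [submatrix_mul_equiv]
    rfl
  obtain ⟨B₁₁, B₁₂, B₂₁, B₂₂, hB'⟩ : ∃ a b c d, B' = fromBlocks a b c d :=
    ⟨_, _, _, _, (fromBlocks_toBlocks B').symm⟩
  rw [hB', fromBlocks_multiply, ← fromBlocks_one, fromBlocks_inj] at h4 h5
  simp only [Matrix.zero_mul, Matrix.one_mul, Matrix.mul_zero, Matrix.mul_one, add_zero,
    zero_add] at h4 h5
  obtain ⟨h41, -, h43, h44⟩ := h4
  obtain ⟨h51, h52, -, -⟩ := h5
  refine ⟨B₁₁, ?_, h41, h51⟩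
  apply triv_intro (κ := β ⊕ Fin p) (δ := Fin p) (Equiv.refl _)
    (Equiv.sumCongr e.symm (Equiv.refl _))
  have h6 : fromBlocks B₁₁ 0 0 (1 : Matrix (Fin p) (Fin p) (ZG H)) = B' := by
    rw [hB', h52, h43, h44]
  rw [h6]
  convert hB using 1
  refine Matrix.ext fun k l => ?_
  rcases k with k | k <;> rcases l with l | l <;> simp [B']

lemma triv_cancel_left [Fintype α] [Fintype β] [Fintype γ] {M : Matrix α β (ZG H)}
    {N : Matrix β γ (ZG H)} (hM : TrivialInWh M) (h : TrivialInWh (M * N)) : TrivialInWh N := by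
  classical
  obtain ⟨M', hM', -, h1⟩ := triv_inv hM
  have := triv_mul hM' h
  rwa [← Matrix.mul_assoc, h1, Matrix.one_mul] at this

lemma triv_cancel_right [Fintype α] [Fintype β] [Fintype γ] {M : Matrix α β (ZG H)}
    {N : Matrix β γ (ZG H)} (hN : TrivialInWh N) (h : TrivialInWh (M * N)) : TrivialInWh M := by
  classical
  obtain ⟨N', hN', h1, -⟩ := triv_inv hN
  have := triv_mul h hN'
  rwa [Matrix.mul_assoc, h1, Matrix.mul_one] at this

lemma triv_block {δ : Type} [Fintype δ] [DecidableEq δ] [Fintype α] [Fintype β]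
    {M : Matrix α β (ZG H)} (hM : TrivialInWh M) :
    TrivialInWh (fromBlocks M 0 0 (1 : Matrix δ δ (ZG H))) := by
  classical
  obtain ⟨e⟩ := triv_equiv hM
  obtain ⟨p, hp⟩ := triv_elim hM
  have h1 := hp p le_rfl (α ⊕ Fin p) (Equiv.refl _) (Equiv.sumCongr e (Equiv.refl _))
  have h2 := El_block (κ' := δ) h1
  -- (α ⊕ Fin p) ⊕ δ ≃ (α ⊕ δ) ⊕ Fin p
  apply triv_intro (κ := (α ⊕ Fin p) ⊕ δ) (δ := Fin p)
    (e₁ := ((Equiv.sumAssoc _ _ _).trans ((Equiv.sumCongr (Equiv.refl _)
      (Equiv.sumComm _ _)).trans (Equiv.sumAssoc _ _ _).symm)))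
    (e₂ := (Equiv.sumCongr (Equiv.sumCongr e (Equiv.refl _)) (Equiv.refl _)).trans
      ((Equiv.sumAssoc _ _ _).trans ((Equiv.sumCongr (Equiv.refl _)
      (Equiv.sumComm _ _)).trans (Equiv.sumAssoc _ _ _).symm)))
  convert h2 using 1
  refine Matrix.ext fun k l => ?_
  rcases k with (k | k) | k <;> rcases l with (l | l) | l <;> simp

lemma triv_unblock {δ : Type} [Fintype δ] [DecidableEq δ] [Fintype α] [Fintype β]
    {M : Matrix α β (ZG H)} (hM : TrivialInWh (fromBlocks M 0 0 (1 : Matrix δ δ (ZG H)))) :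
    TrivialInWh M := by
  classical
  obtain ⟨e⟩ := triv_equiv hM
  obtain ⟨p, hp⟩ := triv_elim hM
  have h1 := hp p le_rfl ((α ⊕ δ) ⊕ Fin p) (Equiv.refl _) (Equiv.sumCongr e (Equiv.refl _))
  apply triv_intro (κ := (α ⊕ δ) ⊕ Fin p) (δ := δ ⊕ Fin p)
    (e₁ := Equiv.sumAssoc _ _ _)
    (e₂ := (Equiv.sumCongr e (Equiv.refl _)).trans (Equiv.sumAssoc _ _ _))
  convert h1 using 1
  have key : (fromBlocks M 0 0 (1 : Matrix (δ ⊕ Fin p) (δ ⊕ Fin p) (ZG H))).submatrix
      (Equiv.sumAssoc α δ (Fin p)) (Equiv.sumAssoc β δ (Fin p)) =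
      fromBlocks (fromBlocks M 0 0 (1 : Matrix δ δ (ZG H))) 0 0 1 := by
    refine Matrix.ext fun k l => ?_
    rcases k with (k | k) | k <;> rcases l with (l | l) | l <;> simp [Matrix.one_apply]
  rw [← key, submatrix_submatrix]
  rfl

end Triv

end Pool.SH
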